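import Pool.Agent.Lib.MP_37c7bf_co_helper26.Defs

section PencilPart

/-!
Linear pencils: for a linear family `L : X → Hom(Y, Z)` the dimension of the kernel is at
most its value at a given point on an open set of full measure.
-/

open MeasureTheory Module Topology

namespace Pool.Agent.H26R

/-- A measurable set meeting every line through `p₀` in a countable set is null. -/
lemma null_of_lines {E : Type*} [NormedAddCommGroup E] [NormedSpace ℝ E] [MeasurableSpace E]
    [BorelSpace E] [FiniteDimensional ℝ E] (μ : Measure E) [μ.IsAddHaarMeasure] {Z : Set E}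
    (hZ : MeasurableSet Z) (p₀ : E)
    (h : ∀ x : E, {t : ℝ | p₀ + t • (x - p₀) ∈ Z}.Countable) : μ Z = 0 := by
  set W : Set (ℝ × E) := {q | p₀ + q.1 • (q.2 - p₀) ∈ Z} with hW
  have hWm : MeasurableSet W := by
    have hc : Continuous fun q : ℝ × E => p₀ + q.1 • (q.2 - p₀) := by fun_prop
    exact hc.measurable hZ
  -- swap order
  have h1 : ((volume : Measure ℝ).prod μ) W = 0 := by
    rw [← Measure.prod_swap, Measure.map_apply measurable_swap hWm]
    rw [Measure.measure_prod_null (measurable_swap hWm)]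
    refine Filter.Eventually.of_forall fun x => ?_
    have : (Prod.mk x ⁻¹' (Prod.swap ⁻¹' W)) = {t : ℝ | p₀ + t • (x - p₀) ∈ Z} := by
      ext t; simp [hW]
    change volume (Prod.mk x ⁻¹' (Prod.swap ⁻¹' W)) = 0
    rw [this]
    exact (h x).measure_zero _
  have h2 := Measure.measure_ae_null_of_prod_null h1
  have h3 : ∀ᵐ t : ℝ ∂volume, t ≠ 0 := by
    rw [ae_iff]; simp
  obtain ⟨t, ht, ht0⟩ := (h2.and h3).exists
  have ht' : μ (Prod.mk t ⁻¹' W) = 0 := ht
  have hset : Z ⊆ AffineMap.homothety p₀ t '' (Prod.mk t ⁻¹' W) := by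
    intro z hz
    refine ⟨p₀ + t⁻¹ • (z - p₀), ?_, ?_⟩
    · simp only [hW, Set.mem_preimage, Set.mem_ofPred_eq, add_sub_cancel_left]
      rw [smul_inv_smul₀ ht0]; simpa using hz
    · simp only [AffineMap.homothety_apply, vsub_eq_sub, add_sub_cancel_left, vadd_eq_add]
      rw [smul_inv_smul₀ ht0]; simp
  refine measure_mono_null hset ?_
  rw [Measure.addHaar_image_homothety, ht', mul_zero]

section
variable {X Y Z : Type*} [NormedAddCommGroup X] [NormedSpace ℝ X] [FiniteDimensional ℝ X]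
  [AddCommGroup Y] [Module ℝ Y] [FiniteDimensional ℝ Y]
  [AddCommGroup Z] [Module ℝ Z]

/-- Auxiliary matrix witnessing that the kernel is small. -/
lemma exists_witness (L : X →ₗ[ℝ] Y →ₗ[ℝ] Z) (p₀ : X) :
    ∃ (n : ℕ) (M : X →ₗ[ℝ] Matrix (Fin n) (Fin n) ℝ), M p₀ = 1 ∧
      ∀ p, (M p).det ≠ 0 → finrank ℝ (LinearMap.ker (L p)) ≤ finrank ℝ (LinearMap.ker (L p₀)) := by
  obtain ⟨U, hU⟩ := Submodule.exists_isCompl (LinearMap.ker (L p₀))
  have hinj : LinearMap.ker ((L p₀).comp U.subtype) = ⊥ := by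
    rw [LinearMap.ker_eq_bot']
    intro u hu
    have h1 : (u : Y) ∈ LinearMap.ker (L p₀) := hu
    have h2 : (u : Y) ∈ LinearMap.ker (L p₀) ⊓ U := ⟨h1, u.2⟩
    rw [hU.inf_eq_bot] at h2
    exact Subtype.ext (by simpa using h2)
  obtain ⟨S, hS⟩ := ((L p₀).comp U.subtype).exists_leftInverse_of_injective hinj
  let b := Module.finBasis ℝ U
  let M : X →ₗ[ℝ] Matrix (Fin (finrank ℝ U)) (Fin (finrank ℝ U)) ℝ :=
    { toFun := fun p => LinearMap.toMatrix b b (S.comp ((L p).comp U.subtype))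
      map_add' := by
        intro p q
        rw [← map_add]
        congr 1
        ext u
        simp
      map_smul' := by
        intro c p
        rw [RingHom.id_apply, ← map_smul]
        congr 1
        ext u
        simp }
  refine ⟨finrank ℝ U, M, ?_, ?_⟩
  · change LinearMap.toMatrix b b (S.comp ((L p₀).comp U.subtype)) = 1
    rw [hS, LinearMap.toMatrix_id]
  · intro p hp
    have hdet : LinearMap.det (S.comp ((L p).comp U.subtype)) ≠ 0 := by
      rwa [← LinearMap.det_toMatrix b]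
    have hker : LinearMap.ker (S.comp ((L p).comp U.subtype)) = ⊥ := by
      by_contra hne
      exact hdet (LinearMap.det_eq_zero_iff_ker_ne_bot.mpr hne)
    have hdisj : LinearMap.ker (L p) ⊓ U = ⊥ := by
      rw [eq_bot_iff]
      rintro y ⟨hy, hyU⟩
      have : (⟨y, hyU⟩ : U) ∈ LinearMap.ker (S.comp ((L p).comp U.subtype)) := by
        have hy' : L p y = 0 := hy
        simp [hy']
      rw [hker] at this
      simpa using congrArg Subtype.val ((Submodule.mem_bot ℝ).1 this)
    have h1 : finrank ℝ (LinearMap.ker (L p)) + finrank ℝ U ≤ finrank ℝ Y := by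
      have := Submodule.finrank_sup_add_finrank_inf_eq (LinearMap.ker (L p)) U
      rw [hdisj, finrank_bot, add_zero] at this
      rw [← this]
      exact Submodule.finrank_le _
    have h2 : finrank ℝ (LinearMap.ker (L p₀)) + finrank ℝ U = finrank ℝ Y :=
      Submodule.finrank_add_eq_of_isCompl hU
    omega

/-- Semicontinuity of the kernel dimension. -/
lemma isOpen_finrank_ker_le (L : X →ₗ[ℝ] Y →ₗ[ℝ] Z) (k : ℕ) :
    IsOpen {p : X | finrank ℝ (LinearMap.ker (L p)) ≤ k} := by
  rw [isOpen_iff_mem_nhds]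
  intro p₀ hp₀
  obtain ⟨n, M, hM, h⟩ := exists_witness L p₀
  have hc : Continuous fun p => (M p).det :=
    (LinearMap.continuous_of_finiteDimensional M).matrix_det
  have : {p : X | (M p).det ≠ 0} ∈ 𝓝 p₀ := by
    apply (isOpen_ne_fun hc continuous_const).mem_nhds
    simp [hM]
  filter_upwards [this] with p hp
  exact (h p hp).trans hp₀

lemma finite_bad {n : ℕ} (N : Matrix (Fin n) (Fin n) ℝ) :
    {t : ℝ | (1 + t • N).det = 0}.Finite := by
  have hne : N.charpolyRev ≠ 0 := by
    intro h0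
    have := N.eval_charpolyRev
    rw [h0] at this
    simp at this
  have hfin : {t : ℝ | N.charpolyRev.IsRoot (-t)}.Finite := by
    have h1 : {t : ℝ | N.charpolyRev.IsRoot t}.Finite :=
      Polynomial.finite_setOfPred_isRoot hne
    exact h1.preimage (neg_injective.injOn)
  refine hfin.subset ?_
  intro t ht
  have : Polynomial.eval (-t) N.charpolyRev = (1 + t • N).det := by
    rw [Matrix.charpolyRev, ← Polynomial.coe_evalRingHom, RingHom.map_det]
    congr 1
    ext i j
    simp [Matrix.one_apply]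
    split_ifs <;> simp [mul_comm]
  simpa [Polynomial.IsRoot, this] using ht

/-- A generic member of a linear pencil has kernel at most as large as a given member. -/
lemma ae_finrank_ker_le [MeasurableSpace X] [BorelSpace X] (μ : Measure X)
    [μ.IsAddHaarMeasure] (L : X →ₗ[ℝ] Y →ₗ[ℝ] Z) (p₀ : X) :
    ∀ᵐ p ∂μ, finrank ℝ (LinearMap.ker (L p)) ≤ finrank ℝ (LinearMap.ker (L p₀)) := by
  obtain ⟨n, M, hM, h⟩ := exists_witness L p₀
  have hc : Continuous fun p => (M p).det :=
    (LinearMap.continuous_of_finiteDimensional M).matrix_det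
  have hnull : μ {p : X | (M p).det = 0} = 0 := by
    refine null_of_lines μ (isClosed_eq hc continuous_const).measurableSet p₀ ?_
    intro x
    refine ((finite_bad (M (x - p₀))).subset ?_).countable
    intro t ht
    simpa [hM] using ht
  have : ∀ᵐ p ∂μ, (M p).det ≠ 0 := by
    rw [ae_iff]
    simpa using hnull
  filter_upwards [this] with p hp
  exact h p hp

end

end Pool.Agent.H26R

end PencilPart

section FlexPart

/-!
Infinitesimal flexes and basic facts.
-/

open MeasureTheory Module Topology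
open scoped RealInnerProductSpace

namespace Pool.Agent.H26R

variable {V : Type*}

/-- The type of directed edges. -/
abbrev DEdge (G : SimpleGraph V) : Type _ := {e : V × V // G.Adj e.1 e.2}

/-- The rigidity map as a bilinear map. -/
noncomputable def rig (G : SimpleGraph V) :
    (V → E3) →ₗ[ℝ] (V → E3) →ₗ[ℝ] (DEdge G → ℝ) :=
  LinearMap.mk₂ ℝ (fun p v e => ⟪p e.1.1 - p e.1.2, v e.1.1 - v e.1.2⟫)
    (by
      intro p p' v; ext e
      simp only [Pi.add_apply]
      rw [← inner_add_left]; congr 1; abel)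
    (by
      intro c p v; ext e
      simp only [Pi.smul_apply, smul_eq_mul]
      rw [← real_inner_smul_left, smul_sub])
    (by
      intro p v v'; ext e
      simp only [Pi.add_apply]
      rw [← inner_add_right]; congr 1; abel)
    (by
      intro c p v; ext e
      simp only [Pi.smul_apply, smul_eq_mul]
      rw [← real_inner_smul_right, smul_sub])

@[simp] lemma rig_apply (G : SimpleGraph V) (p v : V → E3) (e : DEdge G) :
    rig G p v e = ⟪p e.1.1 - p e.1.2, v e.1.1 - v e.1.2⟫ := rfl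

/-- Infinitesimal flexes. -/
noncomputable def Flex (G : SimpleGraph V) (p : V → E3) : Submodule ℝ (V → E3) :=
  LinearMap.ker (rig G p)

lemma mem_Flex {G : SimpleGraph V} {p v : V → E3} :
    v ∈ Flex G p ↔ ∀ i j, G.Adj i j → ⟪p i - p j, v i - v j⟫ = 0 := by
  rw [Flex, LinearMap.mem_ker]
  constructor
  · intro h i j hij
    have := congrFun h ⟨(i, j), hij⟩
    simpa using this
  · intro h
    ext e
    exact h _ _ e.2

/-- Four of the points are affinely independent. -/
def Spans (p : V → E3) : Prop :=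
  ∃ a b c d, ∀ x : E3, ⟪p b - p a, x⟫ = 0 → ⟪p c - p a, x⟫ = 0 → ⟪p d - p a, x⟫ = 0 → x = 0

lemma finrank_Flex_top_le {p : V → E3} [Finite V] (hp : Spans p) :
    finrank ℝ (Flex (⊤ : SimpleGraph V) p) ≤ 6 := by
  obtain ⟨a, b, c, d, h⟩ := hp
  have key : ∀ v ∈ Flex (⊤ : SimpleGraph V) p, ∀ i j, ⟪p i - p j, v i - v j⟫ = 0 := by
    intro v hv i j
    by_cases hij : i = j
    · subst hij; simp
    · exact mem_Flex.1 hv i j ((SimpleGraph.top_adj i j).2 hij)
  -- the evaluation map
  let R : (V → E3) →ₗ[ℝ] (E3 × ℝ × ℝ × ℝ) :=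
    (LinearMap.proj a).prod
      (((innerₛₗ ℝ (p b - p a)).comp (LinearMap.proj c)).prod
        (((innerₛₗ ℝ (p b - p a)).comp (LinearMap.proj d)).prod
          ((innerₛₗ ℝ (p c - p a)).comp (LinearMap.proj d))))
  have hR : LinearMap.ker (R.comp (Flex (⊤ : SimpleGraph V) p).subtype) = ⊥ := by
    rw [LinearMap.ker_eq_bot']
    rintro ⟨v, hv⟩ h0
    have hk := key v hv
    have e1 : v a = 0 := by
      have := congrArg Prod.fst h0; simpa [R] using this
    have e2 : ⟪p b - p a, v c⟫ = 0 := by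
      exact congrArg (fun z => z.2.1) h0
    have e3 : ⟪p b - p a, v d⟫ = 0 := by
      exact congrArg (fun z => z.2.2.1) h0
    have e4 : ⟪p c - p a, v d⟫ = 0 := by
      exact congrArg (fun z => z.2.2.2) h0
    have f1 := hk b a
    have f2 := hk c a
    have f3 := hk d a
    have f4 := hk b c
    have f5 := hk b d
    have f6 := hk c d
    rw [e1, sub_zero] at f1 f2 f3
    have s1 : p b - p c = (p b - p a) - (p c - p a) := by abel
    have s2 : p b - p d = (p b - p a) - (p d - p a) := by abel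
    have s3 : p c - p d = (p c - p a) - (p d - p a) := by abel
    rw [s1, inner_sub_left, inner_sub_right, inner_sub_right] at f4
    rw [s2, inner_sub_left, inner_sub_right, inner_sub_right] at f5
    rw [s3, inner_sub_left, inner_sub_right, inner_sub_right] at f6
    have vb : v b = 0 := h _ f1 (by linarith) (by linarith)
    have vc : v c = 0 := h _ e2 f2 (by linarith)
    have vd : v d = 0 := h _ e3 e4 f3
    have all : ∀ j, v j = 0 := by
      intro j
      have g1 := hk b j
      have g2 := hk c j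
      have g3 := hk d j
      have g0 := hk a j
      rw [vb, zero_sub, inner_neg_right, neg_eq_zero] at g1
      rw [vc, zero_sub, inner_neg_right, neg_eq_zero] at g2
      rw [vd, zero_sub, inner_neg_right, neg_eq_zero] at g3
      rw [e1, zero_sub, inner_neg_right, neg_eq_zero] at g0
      refine h _ ?_ ?_ ?_
      · have : p b - p a = (p b - p j) - (p a - p j) := by abel
        rw [this, inner_sub_left, g1, g0, sub_zero]
      · have : p c - p a = (p c - p j) - (p a - p j) := by abel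
        rw [this, inner_sub_left, g2, g0, sub_zero]
      · have : p d - p a = (p d - p j) - (p a - p j) := by abel
        rw [this, inner_sub_left, g3, g0, sub_zero]
    exact Subtype.ext (funext all)
  have := LinearMap.finrank_le_finrank_of_injective (LinearMap.ker_eq_bot.1 hR)
  refine this.trans ?_
  simp [Module.finrank_prod]

/-- `p ↦` a linear family whose injectivity means `Spans`. -/
noncomputable def spanMap (a b c d : V) : (V → E3) →ₗ[ℝ] E3 →ₗ[ℝ] (ℝ × ℝ × ℝ) :=
  LinearMap.mk₂ ℝ (fun p x => (⟪p b - p a, x⟫, ⟪p c - p a, x⟫, ⟪p d - p a, x⟫))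
    (by
      intro p p' x
      simp only [Pi.add_apply, Prod.mk_add_mk, ← inner_add_left]
      congr 3 <;> abel_nf)
    (by
      intro r p x
      simp only [Pi.smul_apply, Prod.smul_mk, smul_eq_mul, ← real_inner_smul_left, smul_sub])
    (by
      intro p x x'
      simp only [Prod.mk_add_mk, inner_add_right])
    (by
      intro r p x
      simp only [Prod.smul_mk, smul_eq_mul, real_inner_smul_right])

lemma spanMap_apply (a b c d : V) (p : V → E3) (x : E3) :
    spanMap a b c d p x = (⟪p b - p a, x⟫, ⟪p c - p a, x⟫, ⟪p d - p a, x⟫) := rfl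

lemma e3_ext {x : E3} (h : ∀ k : Fin 3, x k = 0) : x = 0 := by
  ext k; simpa using h k

/-- For four distinct vertices, almost every realization is affinely independent there. -/
lemma ae_spans [Fintype V] {a b c d : V} (hab : a ≠ b) (hac : a ≠ c) (had : a ≠ d)
    (hbc : b ≠ c) (hbd : b ≠ d) (hcd : c ≠ d) :
    ∀ᵐ p : V → E3 ∂volume, ∀ x : E3, ⟪p b - p a, x⟫ = 0 → ⟪p c - p a, x⟫ = 0 →
      ⟪p d - p a, x⟫ = 0 → x = 0 := by
  classical
  let p₀ : V → E3 := fun i => if i = b then EuclideanSpace.single 0 1 else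
    if i = c then EuclideanSpace.single 1 1 else if i = d then EuclideanSpace.single 2 1 else 0
  have h0 : LinearMap.ker (spanMap a b c d p₀) = ⊥ := by
    rw [LinearMap.ker_eq_bot']
    intro x hx
    rw [spanMap_apply] at hx
    simp only [Prod.mk_eq_zero] at hx
    obtain ⟨h1, h2, h3⟩ := hx
    have ea : p₀ a = 0 := by simp [p₀, hab, hac, had]
    have eb : p₀ b = EuclideanSpace.single 0 1 := by simp [p₀]
    have ec : p₀ c = EuclideanSpace.single 1 1 := by simp [p₀, hbc.symm]
    have ed : p₀ d = EuclideanSpace.single 2 1 := by simp [p₀, hbd.symm, hcd.symm]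
    rw [ea, eb, sub_zero, EuclideanSpace.inner_single_left] at h1
    rw [ea, ec, sub_zero, EuclideanSpace.inner_single_left] at h2
    rw [ea, ed, sub_zero, EuclideanSpace.inner_single_left] at h3
    apply e3_ext
    intro k
    fin_cases k
    · simpa using h1
    · simpa using h2
    · simpa using h3
  have := ae_finrank_ker_le (volume : Measure (V → E3)) (spanMap a b c d) p₀
  filter_upwards [this] with p hp
  rw [h0, finrank_bot, Nat.le_zero, Submodule.finrank_eq_zero] at hp
  intro x h1 h2 h3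
  have : x ∈ LinearMap.ker (spanMap a b c d p) := by
    rw [LinearMap.mem_ker, spanMap_apply, h1, h2, h3]; rfl
  rw [hp] at this
  simpa using this

end Pool.Agent.H26R

end FlexPart

section InfRigidPart

/-!
Infinitesimal rigidity implies rigidity.
-/

open MeasureTheory Module Topology Filter
open scoped RealInnerProductSpace

namespace Pool.Agent.H26R

variable {V : Type*}

/-- The cross product on `E3`. -/
noncomputable def crossE (ω x : E3) : E3 :=
  !₂[ω 1 * x 2 - ω 2 * x 1, ω 2 * x 0 - ω 0 * x 2, ω 0 * x 1 - ω 1 * x 0]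

lemma crossE_add_left (a b x : E3) : crossE (a + b) x = crossE a x + crossE b x := by
  ext k; fin_cases k <;> simp [crossE] <;> ring

lemma crossE_smul_left (c : ℝ) (a x : E3) : crossE (c • a) x = c • crossE a x := by
  ext k; fin_cases k <;> simp [crossE] <;> ring

lemma crossE_add_right (a x y : E3) : crossE a (x + y) = crossE a x + crossE a y := by
  ext k; fin_cases k <;> simp [crossE] <;> ring

lemma crossE_smul_right (c : ℝ) (a x : E3) : crossE a (c • x) = c • crossE a x := by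
  ext k; fin_cases k <;> simp [crossE] <;> ring

lemma inner_E3 (x y : E3) : ⟪x, y⟫ = x 0 * y 0 + x 1 * y 1 + x 2 * y 2 := by
  rw [PiLp.inner_apply, Fin.sum_univ_three]
  simp [mul_comm]

lemma inner_crossE (ω x y : E3) : ⟪crossE ω x, y⟫ = - ⟪x, crossE ω y⟫ := by
  rw [inner_E3, inner_E3]
  simp [crossE]
  ring

lemma inner_crossE_self (ω x : E3) : ⟪x, crossE ω x⟫ = 0 := by
  rw [inner_E3]
  simp [crossE]
  ring

/-- The skew operator `x ↦ ω × x`. -/
noncomputable def crossB : E3 →ₗ[ℝ] E3 →ₗ[ℝ] E3 :=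
  LinearMap.mk₂ ℝ crossE crossE_add_left crossE_smul_left crossE_add_right crossE_smul_right

/-- The skew operator as a continuous linear map depending continuously on `ω`. -/
noncomputable def K : E3 →L[ℝ] (E3 →L[ℝ] E3) :=
  LinearMap.toContinuousLinearMap
    ((LinearMap.toContinuousLinearMap : (E3 →ₗ[ℝ] E3) ≃ₗ[ℝ] (E3 →L[ℝ] E3)).toLinearMap.comp crossB)

lemma K_apply (ω x : E3) : K ω x = crossE ω x := rfl

lemma K_mem_skewAdjoint (ω : E3) : K ω ∈ skewAdjoint (E3 →L[ℝ] E3) := by
  rw [skewAdjoint.mem_iff, ContinuousLinearMap.star_eq_adjoint]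
  symm
  rw [ContinuousLinearMap.eq_adjoint_iff]
  intro x y
  rw [neg_apply, K_apply, K_apply, inner_neg_left, inner_crossE, neg_neg]

lemma exp_mem_unitary_aux {E : Type*} [NormedAddCommGroup E] [InnerProductSpace ℝ E]
    [CompleteSpace E] {T : E →L[ℝ] E} (hT : T ∈ skewAdjoint (E →L[ℝ] E)) :
    NormedSpace.exp T ∈ unitary (E →L[ℝ] E) := by
  let +nondep : NormedAlgebra ℚ (E →L[ℝ] E) := .restrictScalars ℚ ℝ _
  exact NormedSpace.exp_mem_unitary_of_mem_skewAdjoint hT

lemma exp_K_mem_unitary (ω : E3) : NormedSpace.exp (K ω) ∈ unitary (E3 →L[ℝ] E3) :=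
  exp_mem_unitary_aux (K_mem_skewAdjoint ω)

/-- The parametrisation of the frameworks near `p` by rigid motions and a complement. -/
lemma map_nhds_aux {V E F N : Type*} [Fintype V] [NormedAddCommGroup E] [NormedSpace ℝ E]
    [CompleteSpace E] [NormedAddCommGroup F] [NormedSpace ℝ F] [CompleteSpace F]
    [NormedAddCommGroup N] [NormedSpace ℝ N] [CompleteSpace N] (K : F →L[ℝ] (E →L[ℝ] E))
    (L : N →L[ℝ] (V → E)) (p : V → E)
    (hs : ∀ y : V → E, ∃ (ω : F) (b : E) (n : N), ∀ i, K ω (p i) + b + L n i = y i) :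
    map (fun (z : (F × E) × N) i => NormedSpace.exp (K z.1.1) (p i + L z.2 i) + z.1.2)
      (𝓝 0) = 𝓝 p := by
  let f1 : ((F × E) × N) →L[ℝ] F := (ContinuousLinearMap.fst ℝ F E).comp
    (ContinuousLinearMap.fst ℝ (F × E) N)
  let f2 : ((F × E) × N) →L[ℝ] E := (ContinuousLinearMap.snd ℝ F E).comp
    (ContinuousLinearMap.fst ℝ (F × E) N)
  let f3 : ((F × E) × N) →L[ℝ] (V → E) := L.comp (ContinuousLinearMap.snd ℝ (F × E) N)
  let Φ' : ((F × E) × N) →L[ℝ] (V → E) := ContinuousLinearMap.pi fun i =>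
    (ContinuousLinearMap.apply ℝ E (p i)).comp (K.comp f1) + f2 +
      (ContinuousLinearMap.proj i).comp f3
  have hΦ : HasStrictFDerivAt (fun (z : (F × E) × N) i =>
      NormedSpace.exp (K z.1.1) (p i + L z.2 i) + z.1.2) Φ' 0 := by
    rw [hasStrictFDerivAt_pi']
    intro i
    have h1 : HasStrictFDerivAt (fun z : (F × E) × N => NormedSpace.exp (K z.1.1))
        (K.comp f1) 0 := by
      have hexp : HasStrictFDerivAt (NormedSpace.exp : (E →L[ℝ] E) → (E →L[ℝ] E))
          (1 : (E →L[ℝ] E) →L[ℝ] (E →L[ℝ] E)) ((K.comp f1) 0) := by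
        rw [map_zero]
        exact hasStrictFDerivAt_exp_zero
      exact hexp.comp (0 : (F × E) × N) (K.comp f1).hasStrictFDerivAt
    have h2 : HasStrictFDerivAt (fun z : (F × E) × N => p i + L z.2 i)
        ((ContinuousLinearMap.proj i).comp f3) 0 :=
      (((ContinuousLinearMap.proj (R := ℝ) (φ := fun _ : V => E) i).comp
        f3).hasStrictFDerivAt).const_add (p i)
    have h3 : HasStrictFDerivAt (fun z : (F × E) × N => z.1.2) f2 0 := f2.hasStrictFDerivAt
    refine ((h1.clm_apply h2).add h3).congr_fderiv ?_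
    refine ContinuousLinearMap.ext fun z => ?_
    change _ = K z.1.1 (p i) + z.1.2 + L z.2 i
    simp [NormedSpace.exp_zero, f1, f2, f3]
    abel
  have hsurj : Φ'.range = ⊤ := by
    rw [eq_top_iff]
    intro y _
    obtain ⟨ω, b, n, h⟩ := hs y
    exact ⟨((ω, b), n), funext h⟩
  have hmap := hΦ.map_nhds_eq_of_surj hsurj
  have h0 : (fun i : V => NormedSpace.exp (K (0 : (F × E) × N).1.1)
      (p i + L (0 : (F × E) × N).2 i) + (0 : (F × E) × N).1.2) = p := by
    ext1 i
    simp [NormedSpace.exp_zero]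
  rwa [h0] at hmap

/-- Trivial infinitesimal motions. -/
noncomputable def triv (p : V → E3) : (E3 × E3) →ₗ[ℝ] (V → E3) where
  toFun z := fun i => K z.1 (p i) + z.2
  map_add' := by
    intro z z'; ext1 i
    simp only [Prod.fst_add, Prod.snd_add, map_add, add_apply, Pi.add_apply]
    abel
  map_smul' := by
    intro c z; ext1 i
    simp only [Prod.smul_fst, Prod.smul_snd, map_smul, smul_apply,
      RingHom.id_apply, Pi.smul_apply, smul_add]

lemma triv_apply (p : V → E3) (z : E3 × E3) (i : V) : triv p z i = K z.1 (p i) + z.2 := rfl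

lemma range_triv_le (G : SimpleGraph V) (p : V → E3) : LinearMap.range (triv p) ≤ Flex G p := by
  rintro _ ⟨z, rfl⟩
  rw [mem_Flex]
  intro i j _
  rw [triv_apply, triv_apply, add_sub_add_right_eq_sub, ← map_sub, K_apply]
  exact inner_crossE_self _ _

lemma ker_triv {p : V → E3} (hs : Spans p) : LinearMap.ker (triv p) = ⊥ := by
  obtain ⟨a, b, c, d, h⟩ := hs
  rw [LinearMap.ker_eq_bot']
  rintro ⟨ω, u⟩ h0
  have hi : ∀ i, crossE ω (p i) + u = 0 := fun i => congrFun h0 i
  have hd : ∀ i j, crossE ω (p i - p j) = 0 := by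
    intro i j
    have h1 : crossE ω (p i - p j) = crossE ω (p i) - crossE ω (p j) := by
      have := (K ω).map_sub (p i) (p j)
      simpa [K_apply] using this
    rw [h1, ← add_sub_add_right_eq_sub _ _ u, hi i, hi j, sub_zero]
  have hω : ∀ y, crossE ω y = 0 := by
    intro y
    refine h _ ?_ ?_ ?_
    all_goals
      rw [← neg_eq_zero, ← inner_crossE, hd, inner_zero_left]
  have hω0 : ω = 0 := by
    have e1 := hω (EuclideanSpace.single 0 1)
    have e2 := hω (EuclideanSpace.single 1 1)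
    have c1 := congrArg (fun z : E3 => z 1) e1
    have c2 := congrArg (fun z : E3 => z 2) e1
    have c3 := congrArg (fun z : E3 => z 2) e2
    simp [crossE] at c1 c2 c3
    apply e3_ext
    intro k; fin_cases k
    · exact c3
    · exact c2
    · exact c1
  have hu : u = 0 := by
    have := hi a
    rw [hω0] at this
    have h00 : crossE 0 (p a) = 0 := by rw [← K_apply]; simp
    rwa [h00, zero_add] at this
  rw [hω0, hu]; rfl

lemma Flex_eq_range_triv [Finite V] {G : SimpleGraph V} {p : V → E3} (hs : Spans p)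
    (h : finrank ℝ (Flex G p) ≤ 6) : Flex G p = LinearMap.range (triv p) := by
  have h1 : finrank ℝ (LinearMap.range (triv p)) = 6 := by
    rw [LinearMap.finrank_range_of_inj (LinearMap.ker_eq_bot.1 (ker_triv hs))]
    simp
  symm
  apply Submodule.eq_of_le_of_finrank_le (range_triv_le G p)
  omega

lemma contra_aux {c x : ℝ} (hc : 0 ≤ c) (hx : 0 < x) (hxd : x < 1 / (4 * c + 4))
    (h : x ≤ c * (2 * x ^ 2)) : False := by
  have h1 : x * (4 * c + 4) < 1 := by
    rwa [lt_div_iff₀ (by positivity)] at hxd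
  nlinarith [mul_nonneg hc hx.le]

lemma half_aux {a w : ℝ} (h0 : 0 ≤ a) (h : a ≤ 2 * w) : 1 / 2 * a ^ 2 ≤ 2 * w ^ 2 := by
  nlinarith

lemma polar_aux {a b i : ℝ} (h : a ^ 2 + 2 * i + b ^ 2 = a ^ 2) : i = -(1 / 2) * b ^ 2 := by
  linarith

/-- Infinitesimally rigid frameworks (spanning space) are rigid. -/
theorem rigid_of_finrank_Flex_le [Finite V] {G : SimpleGraph V} {p : V → E3} (hs : Spans p)
    (h : finrank ℝ (Flex G p) ≤ 6) : FrameworkRigid G p := by
  classical
  cases nonempty_fintype V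
  have hF := Flex_eq_range_triv hs h
  obtain ⟨N, hN⟩ := Submodule.exists_isCompl (Flex G p)
  -- injectivity of the rigidity map on N
  have hker : LinearMap.ker ((rig G p).comp N.subtype) = ⊥ := by
    rw [LinearMap.ker_eq_bot']
    intro w hw
    have h1 : (w : V → E3) ∈ Flex G p := hw
    have h2 : (w : V → E3) ∈ Flex G p ⊓ N := ⟨h1, w.2⟩
    rw [hN.inf_eq_bot] at h2
    exact Subtype.ext (by simpa using h2)
  obtain ⟨C, hC0, hC⟩ := LinearMap.exists_antilipschitzWith _ hker
  have hCb : ∀ w : N, ‖w‖ ≤ C * ‖rig G p (w : V → E3)‖ := by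
    intro w
    have := hC.le_mul_dist w 0
    simpa using this
  -- the parametrisation
  let Φ : (E3 × E3) × N → (V → E3) := fun z i =>
    (NormedSpace.exp (K z.1.1)) (p i + (z.2 : V → E3) i) + z.1.2
  have hmap : map Φ (𝓝 0) = 𝓝 p := by
    refine map_nhds_aux K N.subtypeL p fun y => ?_
    have hy : y ∈ Flex G p ⊔ N := by rw [hN.sup_eq_top]; trivial
    obtain ⟨t, ht, n, hn, rfl⟩ := Submodule.mem_sup.1 hy
    rw [hF] at ht
    obtain ⟨z, rfl⟩ := ht
    exact ⟨z.1, z.2, ⟨n, hn⟩, fun i => rfl⟩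
  -- the neighbourhood
  let δ : ℝ := 1 / (4 * C + 4)
  have hδ : 0 < δ := by positivity
  let A : Set ((E3 × E3) × N) := {z | ‖z.2‖ < δ}
  have hA : A ∈ 𝓝 (0 : (E3 × E3) × N) := by
    have : Continuous fun z : (E3 × E3) × N => ‖z.2‖ := by fun_prop
    apply (isOpen_lt this continuous_const).mem_nhds
    simpa using hδ
  refine ⟨Φ '' A, ?_, ?_⟩
  · rw [← hmap]; exact image_mem_map hA
  · rintro _ ⟨⟨⟨ω, b⟩, w⟩, hw, rfl⟩ hq
    have hu := exp_K_mem_unitary ω
    set U : unitary (E3 →L[ℝ] E3) := ⟨_, hu⟩ with hU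
    have hnorm : ∀ x : E3, ‖(NormedSpace.exp (K ω)) x‖ = ‖x‖ := fun x => Unitary.norm_map U x
    have hd : ∀ i j, dist (Φ ((ω, b), w) i) (Φ ((ω, b), w) j)
        = ‖(p i - p j) + ((w : V → E3) i - (w : V → E3) j)‖ := by
      intro i j
      simp only [Φ, dist_eq_norm]
      rw [add_sub_add_right_eq_sub, ← map_sub, hnorm]
      congr 1; abel
    have hz : ∀ e : DEdge G, rig G p (w : V → E3) e
        = - (1 / 2) * ‖(w : V → E3) e.1.1 - (w : V → E3) e.1.2‖ ^ 2 := by
      intro e
      have h1 := hq _ _ e.2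
      rw [hd, dist_eq_norm] at h1
      have h2 := congrArg (fun t : ℝ => t ^ 2) h1
      simp only [norm_add_sq_real] at h2
      rw [rig_apply]
      exact polar_aux h2
    have hle : ‖rig G p (w : V → E3)‖ ≤ 2 * ‖w‖ ^ 2 := by
      rw [pi_norm_le_iff_of_nonneg (by positivity)]
      intro e
      have h1 : ‖(w : V → E3) e.1.1 - (w : V → E3) e.1.2‖ ≤ 2 * ‖w‖ := by
        rw [two_mul]
        exact (norm_sub_le _ _).trans (add_le_add (norm_le_pi_norm (w : V → E3) e.1.1)
          (norm_le_pi_norm (w : V → E3) e.1.2))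
      rw [hz e, neg_mul, norm_neg, Real.norm_of_nonneg
        (mul_nonneg one_half_pos.le (pow_nonneg (norm_nonneg _) 2))]
      exact half_aux (norm_nonneg _) h1
    have hw0 : w = 0 := by
      by_contra hne
      exact contra_aux C.2 (norm_pos_iff.2 hne) hw
        ((hCb w).trans (mul_le_mul_of_nonneg_left hle C.2))
    refine ⟨(Unitary.linearIsometryEquiv U).toIsometryEquiv.trans (IsometryEquiv.addRight b), ?_⟩
    ext1 i
    simp only [Φ, hw0, Function.comp_apply]
    simp [hU]
    rfl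

end Pool.Agent.H26R

end InfRigidPart

section FlowPart

/-!
The constant rank theorem for quadratic maps, in the form needed for flexes.
-/

open Module Topology Filter

namespace Pool.Agent.H26R

variable {X Z : Type*} [NormedAddCommGroup X] [NormedSpace ℝ X] [FiniteDimensional ℝ X]
  [NormedAddCommGroup Z] [NormedSpace ℝ Z] [FiniteDimensional ℝ Z]

lemma exists_flow (B : X →L[ℝ] X →L[ℝ] Z) (hB : ∀ x y, B x y = B y x) (p : X) (m : ℕ)
    (hm : ∀ x, m ≤ finrank ℝ (LinearMap.ker (B x).toLinearMap))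
    (hp : finrank ℝ (LinearMap.ker (B p).toLinearMap) ≤ m) :
    ∃ ψ : (LinearMap.ker (B p).toLinearMap) → X, ψ 0 = p ∧
      HasFDerivAt ψ (Submodule.subtypeL (LinearMap.ker (B p).toLinearMap)) 0 ∧
      ∀ᶠ w in 𝓝 0, B (ψ w) (ψ w) = B p p := by
  classical
  set Kp : Submodule ℝ X := LinearMap.ker (B p).toLinearMap with hKp
  obtain ⟨U, hU⟩ := Submodule.exists_isCompl Kp
  -- left inverse
  have hinj : LinearMap.ker ((B p).toLinearMap.comp U.subtype) = ⊥ := by
    rw [LinearMap.ker_eq_bot']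
    intro u hu
    have h1 : (u : X) ∈ Kp := hu
    have h2 : (u : X) ∈ Kp ⊓ U := ⟨h1, u.2⟩
    rw [hU.inf_eq_bot] at h2
    exact Subtype.ext (by simpa using h2)
  obtain ⟨S, hS⟩ := ((B p).toLinearMap.comp U.subtype).exists_leftInverse_of_injective hinj
  let Sc : Z →L[ℝ] U := LinearMap.toContinuousLinearMap S
  have hSc : ∀ u : U, Sc (B p (u : X)) = u := by
    intro u
    exact LinearMap.congr_fun hS u
  let π : X →L[ℝ] Kp := LinearMap.toContinuousLinearMap (Kp.projectionOnto U hU)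
  have hπK : ∀ k : Kp, π (k : X) = k := fun k => Submodule.projectionOnto_apply_left hU k
  have hπU : ∀ u : U, π (u : X) = 0 := fun u =>
    (Submodule.projectionOnto_apply_eq_zero_iff hU).2 u.2
  -- the composed pencil
  let L2 : X →ₗ[ℝ] X →ₗ[ℝ] U :=
    { toFun := fun x => S.comp (B x).toLinearMap
      map_add' := by intro x y; ext1 v; simp
      map_smul' := by intro c x; ext1 v; simp }
  have hL2p : finrank ℝ (LinearMap.ker (L2 p)) ≤ m := by
    have hdisj : LinearMap.ker (L2 p) ⊓ U = ⊥ := by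
      rw [eq_bot_iff]
      rintro y ⟨hy, hyU⟩
      have h1 : Sc (B p y) = 0 := hy
      have h2 := hSc ⟨y, hyU⟩
      rw [h1] at h2
      simpa using (congrArg Subtype.val h2).symm
    have h1 : finrank ℝ (LinearMap.ker (L2 p)) + finrank ℝ U ≤ finrank ℝ X := by
      have := Submodule.finrank_sup_add_finrank_inf_eq (LinearMap.ker (L2 p)) U
      rw [hdisj, finrank_bot, add_zero] at this
      rw [← this]
      exact Submodule.finrank_le _
    have h2 : finrank ℝ Kp + finrank ℝ U = finrank ℝ X := Submodule.finrank_add_eq_of_isCompl hU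
    omega
  have hopen : {x | finrank ℝ (LinearMap.ker (L2 x)) ≤ m} ∈ 𝓝 p :=
    (isOpen_finrank_ker_le L2 m).mem_nhds hL2p
  have hkereq : ∀ x, finrank ℝ (LinearMap.ker (L2 x)) ≤ m → ∀ v, Sc (B x v) = 0 → B x v = 0 := by
    intro x hx v hv
    have hle : LinearMap.ker (B x).toLinearMap ≤ LinearMap.ker (L2 x) := by
      intro y hy
      have hy' : B x y = 0 := hy
      change S (B x y) = 0
      rw [hy', map_zero]
    have heq := Submodule.eq_of_le_of_finrank_le hle (hx.trans (hm x))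
    have hv' : v ∈ LinearMap.ker (L2 x) := hv
    rw [← heq] at hv'
    exact hv'
  -- the chart
  let f : X → Z := fun x => B x x
  have hf : ∀ x, HasFDerivAt f ((2 : ℝ) • B x) x := by
    intro x
    have := (B.hasFDerivAt (x := x)).clm_apply (hasFDerivAt_id x)
    refine this.congr_fderiv ?_
    ext1 v
    simp [hB v x, two_smul]
  have hfc : ContDiff ℝ 1 f := B.contDiff.clm_apply contDiff_id
  let Φ : X → U × Kp := fun x => (Sc (f x), π x)
  have hΦc : ContDiff ℝ 1 Φ := (Sc.contDiff.comp hfc).prodMk π.contDiff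
  let A : X →L[ℝ] U × Kp := (Sc.comp ((2 : ℝ) • B p)).prod π
  have hA : HasFDerivAt Φ A p := by
    exact (Sc.hasFDerivAt.comp p (hf p)).prodMk π.hasFDerivAt
  have hAdecomp : ∀ (u : U) (k : Kp), A ((u : X) + (k : X)) = ((2 : ℝ) • u, k) := by
    intro u k
    have hk : B p (k : X) = 0 := k.2
    change (Sc (((2 : ℝ) • B p) ((u : X) + (k : X))), π ((u : X) + (k : X))) = _
    rw [map_add, map_add, map_add, hπK, hπU, zero_add]
    congr 1
    simp [hk, hSc]
  have hAbij : Function.Bijective A := by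
    constructor
    · rw [injective_iff_map_eq_zero]
      intro x hx
      have hxm : x ∈ U ⊔ Kp := by rw [sup_comm, hU.sup_eq_top]; trivial
      obtain ⟨u, hu, k, hk, rfl⟩ := Submodule.mem_sup.1 hxm
      have h1 := hAdecomp ⟨u, hu⟩ ⟨k, hk⟩
      rw [hx] at h1
      have h2 := congrArg Prod.fst h1
      have h3 := congrArg Prod.snd h1
      simp only [Prod.fst_zero, Prod.snd_zero] at h2 h3
      have h4 : (⟨u, hu⟩ : U) = 0 := by
        have := h2.symm
        simpa using this
      have h5 : u = 0 := congrArg Subtype.val h4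
      have h6 : k = 0 := congrArg Subtype.val h3.symm
      rw [h5, h6, add_zero]
    · rintro ⟨u, k⟩
      refine ⟨(((2 : ℝ)⁻¹ • u : U) : X) + (k : X), ?_⟩
      rw [hAdecomp]
      congr 1
      rw [smul_smul]; norm_num
  let e : X ≃L[ℝ] U × Kp :=
    (LinearEquiv.ofBijective A.toLinearMap hAbij).toContinuousLinearEquiv
  have he : (e : X →L[ℝ] U × Kp) = A := by
    ext1 x; rfl
  have hA' : HasFDerivAt Φ (e : X →L[ℝ] U × Kp) p := by rw [he]; exact hA
  have h10 : (1 : WithTop ℕ∞) ≠ 0 := one_ne_zero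
  have hΦat : ContDiffAt ℝ 1 Φ p := hΦc.contDiffAt
  set Ψ : U × Kp → X := hΦat.localInverse hA' h10 with hΨ
  have hΨc : ContDiffAt ℝ 1 Ψ (Φ p) := hΦat.to_localInverse hA' h10
  have hstrict := hΦat.hasStrictFDerivAt' hA' h10
  have hΨp : Ψ (Φ p) = p := hΦat.localInverse_apply_image hA' h10
  have hΨd : HasFDerivAt Ψ (e.symm : U × Kp →L[ℝ] X) (Φ p) :=
    hstrict.to_localInverse.hasFDerivAt
  have hright : ∀ᶠ y in 𝓝 (Φ p), Φ (Ψ y) = y := hstrict.eventually_right_inverse
  have hdiff : ∀ᶠ y in 𝓝 (Φ p), DifferentiableAt ℝ Ψ y := by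
    have := hΨc.eventually (by simp)
    filter_upwards [this] with y hy
    exact hy.differentiableAt (by simp)
  have hnear : ∀ᶠ y in 𝓝 (Φ p), finrank ℝ (LinearMap.ker (L2 (Ψ y))) ≤ m := by
    have hc : Tendsto Ψ (𝓝 (Φ p)) (𝓝 p) := by
      have := hΨd.continuousAt.tendsto
      rwa [hΨp] at this
    exact hc hopen
  -- the affine embedding
  let ι : Kp → U × Kp := fun w => (Sc (f p), π p + w)
  have hι0 : ι 0 = Φ p := by simp [ι, Φ]
  have hιd : ∀ w, HasFDerivAt ι (ContinuousLinearMap.inr ℝ U Kp) w := by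
    intro w
    have h1 : HasFDerivAt (fun w : Kp => π p + w) (ContinuousLinearMap.id ℝ Kp) w :=
      (hasFDerivAt_id w).const_add _
    have := (hasFDerivAt_const (Sc (f p)) w).prodMk h1
    refine this.congr_fderiv ?_
    ext1 k
    simp
  have hιc : Tendsto ι (𝓝 0) (𝓝 (Φ p)) := by
    have := (hιd 0).continuousAt.tendsto
    rwa [hι0] at this
  have hall : ∀ᶠ w in 𝓝 (0 : Kp), Φ (Ψ (ι w)) = ι w ∧ DifferentiableAt ℝ Ψ (ι w) ∧
      finrank ℝ (LinearMap.ker (L2 (Ψ (ι w)))) ≤ m :=
    hιc.eventually (hright.and (hdiff.and hnear))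
  obtain ⟨r, hr, hball⟩ := Metric.eventually_nhds_iff_ball.1 hall
  let ψ : Kp → X := fun w => Ψ (ι w)
  have hψ0 : ψ 0 = p := by simp only [ψ]; rw [hι0, hΨp]
  have hψd : HasFDerivAt ψ (Submodule.subtypeL Kp) 0 := by
    have h1 : HasFDerivAt Ψ (e.symm : U × Kp →L[ℝ] X) (ι 0) := by rw [hι0]; exact hΨd
    have h2 := h1.comp (0 : Kp) (hιd 0)
    refine h2.congr_fderiv ?_
    refine ContinuousLinearMap.ext fun k => ?_
    change e.symm (0, k) = (k : X)
    rw [ContinuousLinearEquiv.symm_apply_eq]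
    have := hAdecomp 0 k
    rw [ZeroMemClass.coe_zero, zero_add, smul_zero] at this
    exact this.symm
  refine ⟨ψ, hψ0, hψd, ?_⟩
  -- constancy
  have hconst : ∀ w ∈ Metric.ball (0 : Kp) r, f (ψ w) = f p := by
    have hFd : ∀ w ∈ Metric.ball (0 : Kp) r,
        HasFDerivAt (fun w => f (ψ w)) (0 : Kp →L[ℝ] Z) w := by
      intro w hw
      obtain ⟨_, h2, h3⟩ := hball w hw
      have hψw : HasFDerivAt ψ ((fderiv ℝ Ψ (ι w)).comp (ContinuousLinearMap.inr ℝ U Kp)) w :=
        h2.hasFDerivAt.comp w (hιd w)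
      have hF : HasFDerivAt (fun w => f (ψ w)) (((2 : ℝ) • B (ψ w)).comp
          ((fderiv ℝ Ψ (ι w)).comp (ContinuousLinearMap.inr ℝ U Kp))) w :=
        (hf (ψ w)).comp w hψw
      have hSF : HasFDerivAt (fun w => Sc (f (ψ w))) (Sc.comp (((2 : ℝ) • B (ψ w)).comp
          ((fderiv ℝ Ψ (ι w)).comp (ContinuousLinearMap.inr ℝ U Kp)))) w :=
        Sc.hasFDerivAt.comp w hF
      have hSF0 : HasFDerivAt (fun w => Sc (f (ψ w))) (0 : Kp →L[ℝ] U) w := by
        have hev : (fun w => Sc (f (ψ w))) =ᶠ[𝓝 w] fun _ => Sc (f p) := by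
          filter_upwards [Metric.isOpen_ball.mem_nhds hw] with w' hw'
          exact congrArg Prod.fst (hball w' hw').1
        exact (hasFDerivAt_const (Sc (f p)) w).congr_of_eventuallyEq hev
      have heq := hSF.unique hSF0
      refine hF.congr_fderiv ?_
      refine ContinuousLinearMap.ext fun k => ?_
      have h4 := DFunLike.congr_fun heq k
      have h5 : Sc (B (ψ w) ((2 : ℝ) • (fderiv ℝ Ψ (ι w) (0, k)))) = 0 := by
        have : Sc (((2 : ℝ) • B (ψ w)) (fderiv ℝ Ψ (ι w) (0, k))) = 0 := h4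
        rw [map_smul (B (ψ w))]
        exact this
      have h6 := hkereq _ h3 _ h5
      rw [map_smul (B (ψ w))] at h6
      exact h6
    have hopenb : IsOpen (Metric.ball (0 : Kp) r) := Metric.isOpen_ball
    have hpre : IsPreconnected (Metric.ball (0 : Kp) r) := (convex_ball _ _).isPreconnected
    intro w hw
    have h0 : (0 : Kp) ∈ Metric.ball (0 : Kp) r := Metric.mem_ball_self hr
    have := hopenb.is_const_of_fderiv_eq_zero (𝕜 := ℝ) (f := fun w => f (ψ w)) hpre
      (fun w hw => (hFd w hw).differentiableAt.differentiableWithinAt)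
      (fun w hw => (hFd w hw).fderiv) hw h0
    rw [this, hψ0]
  filter_upwards [Metric.ball_mem_nhds (0 : Kp) hr] with w hw
  exact hconst w hw

end Pool.Agent.H26R

end FlowPart

section GenericPart

/-!
Generic rigidity is equivalent to the existence of an infinitesimally rigid realization
(Gluck, Asimow–Roth), for graphs on at least four vertices.
-/

open MeasureTheory Module Topology Filter
open scoped RealInnerProductSpace

namespace Pool.Agent.H26R

variable {V : Type*}

/-- The continuous version of the rigidity map. -/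
noncomputable def rigC [Fintype V] (G : SimpleGraph V) :
    (V → E3) →L[ℝ] (V → E3) →L[ℝ] (DEdge G → ℝ) :=
  LinearMap.toContinuousLinearMap
    ((LinearMap.toContinuousLinearMap :
      ((V → E3) →ₗ[ℝ] (DEdge G → ℝ)) ≃ₗ[ℝ] ((V → E3) →L[ℝ] (DEdge G → ℝ))).toLinearMap.comp
        (rig G))

lemma rigC_apply [Fintype V] (G : SimpleGraph V) (p v : V → E3) (e : DEdge G) :
    rigC G p v e = ⟪p e.1.1 - p e.1.2, v e.1.1 - v e.1.2⟫ := rfl

lemma rigC_symm [Fintype V] (G : SimpleGraph V) (p v : V → E3) :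
    rigC G p v = rigC G v p := by
  ext e
  rw [rigC_apply, rigC_apply, real_inner_comm]

/-- Sufficiency. -/
theorem genericallyRigid_of_exists [Fintype V] (hcard : 4 ≤ Fintype.card V) {G : SimpleGraph V}
    (h : ∃ p, finrank ℝ (Flex G p) ≤ 6) : GenericallyRigid G := by
  classical
  obtain ⟨p₀, hp₀⟩ := h
  obtain ⟨f⟩ : Nonempty (Fin 4 ↪ V) := by
    rw [Function.Embedding.nonempty_iff_card_le]; simpa using hcard
  have hne : ∀ i j : Fin 4, i ≠ j → f i ≠ f j := fun i j hij h => hij (f.injective h)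
  have h1 := ae_spans (hne 0 1 (by decide)) (hne 0 2 (by decide)) (hne 0 3 (by decide))
    (hne 1 2 (by decide)) (hne 1 3 (by decide)) (hne 2 3 (by decide))
  have h2 := ae_finrank_ker_le (volume : Measure (V → E3)) (rig G) p₀
  unfold GenericallyRigid
  filter_upwards [h1, h2] with p hp1 hp2
  exact rigid_of_finrank_Flex_le ⟨_, _, _, _, hp1⟩ (hp2.trans hp₀)

/-- Necessity. -/
theorem exists_of_genericallyRigid [Fintype V] (hcard : 4 ≤ Fintype.card V) {G : SimpleGraph V}
    (h : GenericallyRigid G) : ∃ p, finrank ℝ (Flex G p) ≤ 6 := by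
  classical
  obtain ⟨f⟩ : Nonempty (Fin 4 ↪ V) := by
    rw [Function.Embedding.nonempty_iff_card_le]; simpa using hcard
  have hne : ∀ i j : Fin 4, i ≠ j → f i ≠ f j := fun i j hij h => hij (f.injective h)
  have h1 := ae_spans (hne 0 1 (by decide)) (hne 0 2 (by decide)) (hne 0 3 (by decide))
    (hne 1 2 (by decide)) (hne 1 3 (by decide)) (hne 2 3 (by decide))
  -- a minimiser
  have hex : ∃ m, ∃ p : V → E3, finrank ℝ (Flex G p) = m := ⟨_, 0, rfl⟩
  let m := Nat.find hex
  obtain ⟨p₀, hp₀⟩ : ∃ p : V → E3, finrank ℝ (Flex G p) = m := Nat.find_spec hex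
  have hmin : ∀ p, m ≤ finrank ℝ (Flex G p) := fun p => Nat.find_min' hex ⟨p, rfl⟩
  have h2 := ae_finrank_ker_le (volume : Measure (V → E3)) (rig G) p₀
  obtain ⟨p, ⟨hr, hs⟩, hm⟩ := ((h.and h1).and h2).exists
  have hm' : finrank ℝ (Flex G p) ≤ m := by
    rw [← hp₀]; exact hm
  refine ⟨p, ?_⟩
  obtain ⟨ψ, hψ0, hψd, hψ⟩ := exists_flow (rigC G) (rigC_symm G) p m hmin hm'
  -- Flex G p ≤ Flex ⊤ p
  have hle : Flex G p ≤ Flex (⊤ : SimpleGraph V) p := by
    obtain ⟨U, hU, hUr⟩ := hr
    have hψc : Tendsto ψ (𝓝 0) (𝓝 p) := by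
      have := hψd.continuousAt.tendsto
      rwa [hψ0] at this
    have hev : ∀ᶠ w in 𝓝 (0 : Flex G p), rigC (⊤ : SimpleGraph V) (ψ w) (ψ w)
        = rigC (⊤ : SimpleGraph V) p p := by
      filter_upwards [hψ, hψc.eventually hU] with w hw hwU
      obtain ⟨g, hg⟩ := hUr (ψ w) hwU (by
        intro i j hij
        have := congrFun hw ⟨(i, j), hij⟩
        rw [rigC_apply, rigC_apply, real_inner_self_eq_norm_sq, real_inner_self_eq_norm_sq] at this
        rw [dist_eq_norm, dist_eq_norm]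
        exact (pow_left_inj₀ (norm_nonneg _) (norm_nonneg _) two_ne_zero).1 this)
      ext e
      rw [rigC_apply, rigC_apply, real_inner_self_eq_norm_sq, real_inner_self_eq_norm_sq,
        ← dist_eq_norm, ← dist_eq_norm, hg]
      simp only [Function.comp_apply]
      rw [g.dist_eq]
    have hd1 : HasFDerivAt (fun w : Flex G p => rigC (⊤ : SimpleGraph V) (ψ w) (ψ w))
        (((rigC (⊤ : SimpleGraph V) (ψ 0)).comp (Submodule.subtypeL (Flex G p))) +
          ((rigC (⊤ : SimpleGraph V)).comp (Submodule.subtypeL (Flex G p))).flip (ψ 0)) 0 := by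
      have ha : HasFDerivAt (fun w : Flex G p => rigC (⊤ : SimpleGraph V) (ψ w))
          ((rigC (⊤ : SimpleGraph V)).comp (Submodule.subtypeL (Flex G p))) 0 :=
        (rigC (⊤ : SimpleGraph V)).hasFDerivAt.comp (0 : Flex G p) hψd
      exact ha.clm_apply hψd
    have hd0 : HasFDerivAt (fun w : Flex G p => rigC (⊤ : SimpleGraph V) (ψ w) (ψ w))
        (0 : Flex G p →L[ℝ] (DEdge (⊤ : SimpleGraph V) → ℝ)) 0 :=
      (hasFDerivAt_const (rigC (⊤ : SimpleGraph V) p p) (0 : Flex G p)).congr_of_eventuallyEq hev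
    have heq := hd1.unique hd0
    intro v hv
    have h3 := DFunLike.congr_fun heq (⟨v, hv⟩ : Flex G p)
    have h4 : rigC (⊤ : SimpleGraph V) p v + rigC (⊤ : SimpleGraph V) v p = 0 := by
      rw [hψ0] at h3
      exact h3
    rw [rigC_symm _ v p, ← two_smul ℝ, smul_eq_zero] at h4
    have h5 : rigC (⊤ : SimpleGraph V) p v = 0 := h4.resolve_left two_ne_zero
    exact h5
  exact (Submodule.finrank_mono hle).trans (finrank_Flex_top_le ⟨_, _, _, _, hs⟩)

/-- Gluck / Asimow–Roth: generic rigidity is equivalent to the existence of a realization whose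
space of infinitesimal flexes has dimension at most six. -/
theorem genericallyRigid_iff [Fintype V] (hcard : 4 ≤ Fintype.card V) (G : SimpleGraph V) :
    GenericallyRigid G ↔ ∃ p, finrank ℝ (Flex G p) ≤ 6 :=
  ⟨exists_of_genericallyRigid hcard, genericallyRigid_of_exists hcard⟩

end Pool.Agent.H26R

end GenericPart

section Core4Part

/-!
Flexes of graphs containing a spanning complete bipartite graph, one side containing a
tetrahedral frame and the other side being affinely spanning.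
-/

open Module
open scoped RealInnerProductSpace

namespace Pool.Agent.H26R

/-- Gauge fixing by coordinates. -/
lemma finrank_Flex_le_six {T : Type*} [Finite T] {Γ : SimpleGraph T} {p : T → E3}
    (idx : Fin 6 → T × Fin 3)
    (h : ∀ v ∈ Flex Γ p, (∀ k, v (idx k).1 (idx k).2 = 0) → v = 0) :
    finrank ℝ (Flex Γ p) ≤ 6 := by
  cases nonempty_fintype T
  let R : (T → E3) →ₗ[ℝ] (Fin 6 → ℝ) :=
    { toFun := fun v k => v (idx k).1 (idx k).2
      map_add' := by intro v w; ext k; simp
      map_smul' := by intro c v; ext k; simp }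
  have hR : LinearMap.ker (R.comp (Flex Γ p).subtype) = ⊥ := by
    rw [LinearMap.ker_eq_bot']
    rintro ⟨v, hv⟩ h0
    exact Subtype.ext (h v hv (fun k => congrFun h0 k))
  have := LinearMap.finrank_le_finrank_of_injective (LinearMap.ker_eq_bot.1 hR)
  simpa using this

/-- velocities on the frame side -/
noncomputable def FA (a : Fin 6 → ℝ) (q : E3) : E3 :=
  !₂[q 0 * a 0 + q 1 * a 1 + q 2 * a 3, q 1 * a 2 + q 2 * a 4, q 2 * a 5]

/-- velocities on the other side -/
noncomputable def UB (a : Fin 6 → ℝ) (q : E3) : E3 :=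
  !₂[(1 - q 0) * a 0, (1 - q 1) * a 2 - q 0 * a 1, (1 - q 2) * a 5 - q 0 * a 3 - q 1 * a 4]

/-- the quadratic constraint -/
noncomputable def CQ (a : Fin 6 → ℝ) (q : E3) : ℝ :=
  q 0 * (1 - q 0) * a 0 + q 1 * (1 - q 1) * a 2 + q 2 * (1 - q 2) * a 5
    - q 0 * q 1 * a 1 - q 0 * q 2 * a 3 - q 1 * q 2 * a 4

section
variable {T : Type*} {Γ : SimpleGraph T} {p : T → E3}

lemma core4 (i0 i1 i2 i3 j0 j1 j2 j3 : T)
    (h0 : p i0 = 0) (h1 : p i1 = EuclideanSpace.single 0 1)
    (h2 : p i2 = EuclideanSpace.single 1 1) (h3 : p i3 = EuclideanSpace.single 2 1)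
    (isB : T → Prop)
    (hB : ∀ t, isB t → Γ.Adj t i0 ∧ Γ.Adj t i1 ∧ Γ.Adj t i2 ∧ Γ.Adj t i3)
    (hA : ∀ t, ¬ isB t → Γ.Adj t j0 ∧ Γ.Adj t j1 ∧ Γ.Adj t j2 ∧ Γ.Adj t j3)
    (b0 : isB j0) (b1 : isB j1) (b2 : isB j2) (b3 : isB j3)
    (hspan : ∀ (δ : E3) (κ : ℝ), ⟪p j0, δ⟫ = κ → ⟪p j1, δ⟫ = κ → ⟪p j2, δ⟫ = κ →
      ⟪p j3, δ⟫ = κ → δ = 0 ∧ κ = 0)
    {v : T → E3} (hv : v ∈ Flex Γ p) (g0 : v i0 = 0) (g1 : v i1 1 = 0) (g2 : v i1 2 = 0)
    (g3 : v i2 2 = 0) :
    ∃ a : Fin 6 → ℝ, v i1 0 = a 0 ∧ v i2 0 = a 1 ∧ v i2 1 = a 2 ∧ v i3 0 = a 3 ∧ v i3 1 = a 4 ∧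
      v i3 2 = a 5 ∧
      (∀ t, isB t → v t = UB a (p t)) ∧ (∀ t, ¬ isB t → v t = FA a (p t)) ∧
      (∀ t, CQ a (p t) = 0) := by
  let a : Fin 6 → ℝ := ![v i1 0, v i2 0, v i2 1, v i3 0, v i3 1, v i3 2]
  have ha0 : a 0 = v i1 0 := rfl
  have ha1 : a 1 = v i2 0 := rfl
  have ha2 : a 2 = v i2 1 := rfl
  have ha3 : a 3 = v i3 0 := rfl
  have ha4 : a 4 = v i3 1 := rfl
  have ha5 : a 5 = v i3 2 := rfl
  have hBt : ∀ t, isB t → v t = UB a (p t) ∧ CQ a (p t) = 0 := by
    intro t ht
    obtain ⟨t0, t1, t2, t3⟩ := hB t ht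
    have e0 := mem_Flex.1 hv _ _ t0
    have e1 := mem_Flex.1 hv _ _ t1
    have e2 := mem_Flex.1 hv _ _ t2
    have e3 := mem_Flex.1 hv _ _ t3
    rw [h0, g0, sub_zero, sub_zero, inner_E3] at e0
    rw [h1, inner_E3] at e1
    rw [h2, inner_E3] at e2
    rw [h3, inner_E3] at e3
    simp at e1 e2 e3
    rw [g1, g2, ← ha0] at e1
    rw [g3, ← ha1, ← ha2] at e2
    rw [← ha3, ← ha4, ← ha5] at e3
    have f0 : v t 0 = (1 - p t 0) * a 0 := by linear_combination e0 - e1
    have f1 : v t 1 = (1 - p t 1) * a 2 - p t 0 * a 1 := by linear_combination e0 - e2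
    have f2 : v t 2 = (1 - p t 2) * a 5 - p t 0 * a 3 - p t 1 * a 4 := by
      linear_combination e0 - e3
    constructor
    · ext k; fin_cases k
      · simpa [UB] using f0
      · simpa [UB] using f1
      · simpa [UB] using f2
    · rw [f0, f1, f2] at e0
      rw [CQ]
      linear_combination e0
  have hAt : ∀ t, ¬ isB t → v t = FA a (p t) ∧ CQ a (p t) = 0 := by
    intro t ht
    obtain ⟨t0, t1, t2, t3⟩ := hA t ht
    have key : ∀ s, isB s → Γ.Adj t s → ⟪p s, v t - FA a (p t)⟫
        = ⟪p t, v t - FA a (p t)⟫ - CQ a (p t) := by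
      intro s hs hadj
      obtain ⟨hs1, hs2⟩ := hBt s hs
      have e := mem_Flex.1 hv _ _ hadj
      rw [hs1, inner_E3] at e
      rw [inner_E3, inner_E3]
      rw [CQ] at hs2
      simp [UB, FA, CQ] at e hs2 ⊢
      linear_combination (-1 : ℝ) * e + hs2
    have hk := hspan (v t - FA a (p t)) (⟪p t, v t - FA a (p t)⟫ - CQ a (p t))
      (key _ b0 t0) (key _ b1 t1) (key _ b2 t2) (key _ b3 t3)
    refine ⟨sub_eq_zero.1 hk.1, ?_⟩
    have h5 := hk.2
    rw [hk.1, inner_zero_right, zero_sub, neg_eq_zero] at h5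
    exact h5
  refine ⟨a, rfl, rfl, rfl, rfl, rfl, rfl, fun t ht => (hBt t ht).1, fun t ht => (hAt t ht).1,
    fun t => ?_⟩
  by_cases ht : isB t
  · exact (hBt t ht).2
  · exact (hAt t ht).2

/-- Reduction of infinitesimal rigidity to a linear system in six unknowns. -/
lemma finrank_le_of_core4 [Finite T] (i0 i1 i2 i3 j0 j1 j2 j3 : T)
    (h0 : p i0 = 0) (h1 : p i1 = EuclideanSpace.single 0 1)
    (h2 : p i2 = EuclideanSpace.single 1 1) (h3 : p i3 = EuclideanSpace.single 2 1)
    (isB : T → Prop)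
    (hB : ∀ t, isB t → Γ.Adj t i0 ∧ Γ.Adj t i1 ∧ Γ.Adj t i2 ∧ Γ.Adj t i3)
    (hA : ∀ t, ¬ isB t → Γ.Adj t j0 ∧ Γ.Adj t j1 ∧ Γ.Adj t j2 ∧ Γ.Adj t j3)
    (b0 : isB j0) (b1 : isB j1) (b2 : isB j2) (b3 : isB j3)
    (hspan : ∀ (δ : E3) (κ : ℝ), ⟪p j0, δ⟫ = κ → ⟪p j1, δ⟫ = κ → ⟪p j2, δ⟫ = κ →
      ⟪p j3, δ⟫ = κ → δ = 0 ∧ κ = 0)
    (hsys : ∀ a : Fin 6 → ℝ, (∀ t, CQ a (p t) = 0) →
      (∀ t s, ¬ isB t → ¬ isB s → Γ.Adj t s → ⟪p t - p s, FA a (p t) - FA a (p s)⟫ = 0) →
      (∀ t s, isB t → isB s → Γ.Adj t s → ⟪p t - p s, UB a (p t) - UB a (p s)⟫ = 0) →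
      a = 0) :
    finrank ℝ (Flex Γ p) ≤ 6 := by
  apply finrank_Flex_le_six ![(i0, 0), (i0, 1), (i0, 2), (i1, 1), (i1, 2), (i2, 2)]
  intro v hv hk
  have k0 := hk 0
  have k1 := hk 1
  have k2 := hk 2
  have k3 := hk 3
  have k4 := hk 4
  have k5 := hk 5
  simp at k0 k1 k2 k3 k4 k5
  have g0 : v i0 = 0 := by
    apply e3_ext; intro k; fin_cases k
    · exact k0
    · exact k1
    · exact k2
  obtain ⟨a, -, -, -, -, -, -, hb, ha, hc⟩ := core4 i0 i1 i2 i3 j0 j1 j2 j3 h0 h1 h2 h3 isB hB hA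
    b0 b1 b2 b3 hspan hv g0 k3 k4 k5
  have hz : a = 0 := by
    apply hsys a hc
    · intro t s ht hs hadj
      rw [← ha t ht, ← ha s hs]
      exact mem_Flex.1 hv _ _ hadj
    · intro t s ht hs hadj
      rw [← hb t ht, ← hb s hs]
      exact mem_Flex.1 hv _ _ hadj
  ext1 t
  by_cases ht : isB t
  · rw [hb t ht, hz]
    apply e3_ext; intro k; fin_cases k <;> simp [UB]
  · rw [ha t ht, hz]
    apply e3_ext; intro k; fin_cases k <;> simp [FA]

end

end Pool.Agent.H26R

end Core4Part
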