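import Mathlib

/-!
Definitions for MP_37c7bf_co: rigidity of bar-and-joint frameworks in three-space and generic
rigidity, exactly as in the problem file.
-/

open MeasureTheory

namespace Pool.Agent.H26R

/-- Euclidean three-space. -/
abbrev E3 : Type := EuclideanSpace ℝ (Fin 3)

/-- The framework `(G, p)` is rigid: there is a neighbourhood `U` of `p` in the space of all
realizations such that every `q ∈ U` with the same edge lengths as `p` is `g ∘ p` for some
isometry `g` of three-space. -/
def FrameworkRigid {V : Type*} (G : SimpleGraph V) (p : V → E3) : Prop :=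
  ∃ U ∈ nhds p, ∀ q ∈ U, (∀ i j, G.Adj i j → dist (q i) (q j) = dist (p i) (p j)) →
    ∃ g : E3 ≃ᵢ E3, q = g ∘ p

/-- `G` is generically rigid in 3D: almost all realizations (for Lebesgue measure) are rigid. -/
def GenericallyRigid {V : Type*} [Fintype V] (G : SimpleGraph V) : Prop :=
  ∀ᵐ p : V → E3 ∂volume, FrameworkRigid G p

end Pool.Agent.H26R
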