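import Pool.Agent.Lib.MP_37c7bf_co_helper26.Main
import Pool.Agent.Lib.MP_37c7bf_co_helper26.Defs

section KernelBasicPart

/-!
Adding and removing vertices; the general hinge argument.
-/

open Module MeasureTheory
open scoped RealInnerProductSpace

namespace Pool.Agent.H26R

variable {T : Type*}

lemma K_self (ω : E3) : K ω ω = 0 := by
  rw [K_apply]
  apply e3_ext
  intro k
  fin_cases k <;> simp [crossE] <;> ring

/-- Hinge argument: if the edges leaving `S` all end in the two vertices `u`, `w`, then the graph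
is flexible (provided there are vertices on both sides). -/
theorem hinge [Fintype T] (Γ : SimpleGraph T) (S : Set T) {u w x y : T} (huw : u ≠ w)
    (hxS : x ∈ S) (huS : u ∉ S) (hwS : w ∉ S) (hyS : y ∉ S) (hyu : y ≠ u) (hyw : y ≠ w)
    (hS : ∀ a ∈ S, ∀ b, b ∉ S → Γ.Adj a b → b = u ∨ b = w) :
    ¬ ∃ p, finrank ℝ (Flex Γ p) ≤ 6 := by
  classical
  rintro ⟨p₀, hp₀⟩
  have hxu : x ≠ u := fun h => huS (h ▸ hxS)
  have hxw : x ≠ w := fun h => hwS (h ▸ hxS)
  have hxy : x ≠ y := fun h => hyS (h ▸ hxS)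
  have h1 := ae_spans (V := T) (a := u) (b := w) (c := y) (d := x) huw hyu.symm hxu.symm
    hyw.symm hxw.symm hxy.symm
  have h2 := ae_finrank_ker_le (volume : Measure (T → E3)) (rig Γ) p₀
  obtain ⟨p, hs, hm⟩ := (h1.and h2).exists
  have hm' : finrank ℝ (Flex Γ p) ≤ 6 := hm.trans hp₀
  have hF := Flex_eq_range_triv ⟨_, _, _, _, hs⟩ hm'
  set ω : E3 := p w - p u with hω
  let v : T → E3 := fun k => if k ∈ S then K ω (p k - p u) else 0
  have hcross : ∀ a ∈ S, ∀ b, b ∉ S → Γ.Adj a b → ⟪p a - p b, v a - v b⟫ = 0 := by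
    intro a ha b hb hab
    have hKb : K ω (p b - p u) = 0 := by
      rcases hS a ha b hb hab with rfl | rfl
      · simp
      · exact K_self ω
    have e : v a - v b = K ω (p a - p b) := by
      simp only [v, if_pos ha, if_neg hb, sub_zero]
      have : p a - p u = (p a - p b) + (p b - p u) := by abel
      rw [this, map_add, hKb, add_zero]
    rw [e]
    exact inner_crossE_self _ _
  have hv : v ∈ Flex Γ p := by
    rw [mem_Flex]
    intro a b hab
    by_cases ha : a ∈ S <;> by_cases hb : b ∈ S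
    · have e : v a - v b = K ω (p a - p b) := by
        simp only [v, if_pos ha, if_pos hb]
        rw [← map_sub]
        congr 1
        abel
      rw [e]
      exact inner_crossE_self _ _
    · exact hcross a ha b hb hab
    · have := hcross b hb a ha hab.symm
      rw [← neg_sub (p b), ← neg_sub (v b), inner_neg_neg]
      exact this
    · simp [v, ha, hb]
  rw [hF] at hv
  obtain ⟨z, hz⟩ := hv
  have zu : K z.1 (p u) + z.2 = 0 := by
    have := congrFun hz u
    rw [triv_apply] at this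
    simpa [v, huS] using this
  have zw : K z.1 (p w) + z.2 = 0 := by
    have := congrFun hz w
    rw [triv_apply] at this
    simpa [v, hwS] using this
  have zy : K z.1 (p y) + z.2 = 0 := by
    have := congrFun hz y
    rw [triv_apply] at this
    simpa [v, hyS] using this
  have zx : K z.1 (p x) + z.2 = K ω (p x - p u) := by
    have := congrFun hz x
    rw [triv_apply] at this
    simpa [v, hxS] using this
  have z1 : z.1 = 0 := by
    apply crossE_eq_zero_of hs
    · rw [map_sub]
      rw [← add_sub_add_right_eq_sub _ _ z.2, zu, zw, sub_zero]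
    · rw [map_sub]
      rw [← add_sub_add_right_eq_sub _ _ z.2, zu, zy, sub_zero]
  have z2 : z.2 = 0 := by
    rw [z1] at zu
    simpa using zu
  have hKx : K ω (p x - p u) = 0 := by
    rw [← zx, z1, z2]; simp
  have : ω = 0 := crossE_eq_zero_of (a := ω) (b := p x - p u)
    (c := p y - p u) (fun z e1 e2 e3 => hs z e1 e3 e2) (K_self ω) hKx
  exact ne_zero_of_spans hs this

/-- The subgraph induced on `X` has a realization with at most six-dimensional flexes. -/
def RX (Γ : SimpleGraph T) (X : Set T) : Prop :=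
  ∃ p : T → E3, finrank ℝ (Flex (Γ.induce X) (fun x : X => p x)) ≤ 6

lemma RX_iff (Γ : SimpleGraph T) (X : Set T) :
    RX Γ X ↔ ∃ p : X → E3, finrank ℝ (Flex (Γ.induce X) p) ≤ 6 := by
  classical
  constructor
  · rintro ⟨p, hp⟩; exact ⟨_, hp⟩
  · rintro ⟨p, hp⟩
    refine ⟨fun t => if h : t ∈ X then p ⟨t, h⟩ else 0, ?_⟩
    have : (fun x : X => (fun t => if h : t ∈ X then p ⟨t, h⟩ else 0) (x : T)) = p := by
      ext1 x; simp
    rw [this]
    exact hp

lemma RX.ae [Fintype T] {Γ : SimpleGraph T} {X : Set T} (h : RX Γ X) :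
    ∀ᵐ p : T → E3 ∂volume, finrank ℝ (Flex (Γ.induce X) (fun x : X => p x)) ≤ 6 := by
  obtain ⟨p₀, hp₀⟩ := h
  have := ae_finrank_ker_le (volume : Measure (T → E3))
    ((rig (Γ.induce X)).comp (LinearMap.funLeft ℝ E3 (Subtype.val : X → T))) p₀
  filter_upwards [this] with p hp
  exact le_trans hp hp₀

/-- A bijection preserving edges transports rigidity. -/
lemma exists_of_equiv {T' : Type*} [Finite T] {Γ : SimpleGraph T} {Γ' : SimpleGraph T'}
    (φ : T ≃ T') (hφ : ∀ i j, Γ.Adj i j → Γ'.Adj (φ i) (φ j))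
    (h : ∃ p, finrank ℝ (Flex Γ p) ≤ 6) : ∃ p, finrank ℝ (Flex Γ' p) ≤ 6 := by
  obtain ⟨p, hp⟩ := h
  refine ⟨fun t => p (φ.symm t), ?_⟩
  let L : (T' → E3) →ₗ[ℝ] (T → E3) := LinearMap.funLeft ℝ E3 φ
  have hL : Function.Injective L := by
    apply LinearMap.funLeft_injective_of_surjective
    exact φ.surjective
  have hmap : ∀ v ∈ Flex Γ' (fun t => p (φ.symm t)), L v ∈ Flex Γ p := by
    intro v hv
    rw [mem_Flex]
    intro i j hij
    have := mem_Flex.1 hv (φ i) (φ j) (hφ i j hij)
    simpa [L] using this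
  have hinj : Function.Injective (L.restrict hmap) := by
    intro x y hxy
    apply Subtype.ext
    apply hL
    exact congrArg Subtype.val hxy
  exact (LinearMap.finrank_le_finrank_of_injective hinj).trans hp

/-- Restriction of flexes. -/
lemma restrict_mem {Γ : SimpleGraph T} {X Y : Set T} (hXY : X ⊆ Y) {p : T → E3} {v : Y → E3}
    (hv : v ∈ Flex (Γ.induce Y) (fun x : Y => p x)) :
    (fun x : X => v ⟨x, hXY x.2⟩) ∈ Flex (Γ.induce X) (fun x : X => p x) := by
  rw [mem_Flex] at hv ⊢
  intro i j hij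
  exact hv ⟨i, hXY i.2⟩ ⟨j, hXY j.2⟩ hij

/-- the restriction map -/
noncomputable def resMap (Γ : SimpleGraph T) {X Y : Set T} (hXY : X ⊆ Y) (p : T → E3) :
    Flex (Γ.induce Y) (fun x : Y => p x) →ₗ[ℝ] Flex (Γ.induce X) (fun x : X => p x) where
  toFun v := ⟨fun x : X => v.1 ⟨x, hXY x.2⟩, restrict_mem hXY v.2⟩
  map_add' _ _ := rfl
  map_smul' _ _ := rfl

/-- Adding a vertex with three neighbours. -/
lemma RX_insert [Fintype T] {Γ : SimpleGraph T} {X : Set T} {x a b c : T} (hx : x ∉ X)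
    (ha : a ∈ X) (hb : b ∈ X) (hc : c ∈ X) (hab : a ≠ b) (hac : a ≠ c) (hbc : b ≠ c)
    (hxa : Γ.Adj x a) (hxb : Γ.Adj x b) (hxc : Γ.Adj x c) (h : RX Γ X) :
    RX Γ (insert x X) := by
  have h1 := ae_spans (V := T) (a := x) (b := a) (c := b) (d := c) hxa.ne hxb.ne hxc.ne hab hac hbc
  obtain ⟨p, hs, hm⟩ := (h1.and h.ae).exists
  refine ⟨p, le_trans ?_ hm⟩
  apply LinearMap.finrank_le_finrank_of_injective
    (f := resMap Γ (Set.subset_insert x X) p)
  rw [← LinearMap.ker_eq_bot, LinearMap.ker_eq_bot']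
  rintro ⟨v, hv⟩ h0
  have hX : ∀ y (hy : y ∈ X), v ⟨y, Set.mem_insert_of_mem x hy⟩ = 0 := fun y hy =>
    congrFun (congrArg Subtype.val h0) ⟨y, hy⟩
  have hv' := mem_Flex.1 hv
  have hxx : v ⟨x, Set.mem_insert x X⟩ = 0 := by
    apply hs
    · have := hv' ⟨a, Set.mem_insert_of_mem x ha⟩ ⟨x, Set.mem_insert x X⟩ hxa.symm
      rw [hX a ha, zero_sub, inner_neg_right, neg_eq_zero] at this
      exact this
    · have := hv' ⟨b, Set.mem_insert_of_mem x hb⟩ ⟨x, Set.mem_insert x X⟩ hxb.symm
      rw [hX b hb, zero_sub, inner_neg_right, neg_eq_zero] at this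
      exact this
    · have := hv' ⟨c, Set.mem_insert_of_mem x hc⟩ ⟨x, Set.mem_insert x X⟩ hxc.symm
      rw [hX c hc, zero_sub, inner_neg_right, neg_eq_zero] at this
      exact this
  apply Subtype.ext
  funext y
  rcases y with ⟨y, hy⟩
  rcases Set.mem_insert_iff.1 hy with rfl | hy'
  · exact hxx
  · exact hX y hy'

/-- Removing a vertex when every flex of the rest extends. -/
lemma RX_remove [Fintype T] {Γ : SimpleGraph T} {X : Set T} {x : T} (hx : x ∉ X)
    (hext : ∀ᵐ p : T → E3 ∂volume, ∀ v ∈ Flex (Γ.induce X) (fun x : X => p x), ∃ z : E3,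
      ∀ (y : T) (hy : y ∈ X), Γ.Adj x y → ⟪p x - p y, z - v ⟨y, hy⟩⟫ = 0)
    (h : RX Γ (insert x X)) : RX Γ X := by
  classical
  obtain ⟨p, hs, hm⟩ := (hext.and h.ae).exists
  refine ⟨p, le_trans ?_ hm⟩
  have hsurj : Function.Surjective (resMap Γ (Set.subset_insert x X) p) := by
    rintro ⟨v, hv⟩
    obtain ⟨z, hz⟩ := hs v hv
    have hv' := mem_Flex.1 hv
    let v' : ↥(insert x X) → E3 := fun y => if h : (y : T) ∈ X then v ⟨y, h⟩ else z
    have e1 : ∀ (y : T) (hy : y ∈ X) (hy' : y ∈ insert x X), v' ⟨y, hy'⟩ = v ⟨y, hy⟩ := by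
      intro y hy hy'; simp [v', hy]
    have e2 : ∀ (hy' : x ∈ insert x X), v' ⟨x, hy'⟩ = z := by
      intro hy'; simp [v', hx]
    refine ⟨⟨v', ?_⟩, ?_⟩
    · rw [mem_Flex]
      rintro ⟨i, hi⟩ ⟨j, hj⟩ hij
      have hij' : Γ.Adj i j := hij
      rcases Set.mem_insert_iff.1 hi with rfl | hi' <;> rcases Set.mem_insert_iff.1 hj with rfl | hj'
      · exact absurd hij' (Γ.loopless.irrefl _)
      · rw [e2, e1 j hj']
        exact hz j hj' hij'
      · rw [e2, e1 i hi']
        have := hz i hi' hij'.symm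
        have e3 : (p i - p j) = - (p j - p i) := by abel
        have e4 : (v ⟨i, hi'⟩ - z) = - (z - v ⟨i, hi'⟩) := by abel
        show ⟪p i - p j, v ⟨i, hi'⟩ - z⟫ = 0
        rw [e3, e4, inner_neg_neg]
        exact this
      · rw [e1 i hi', e1 j hj']
        exact hv' ⟨i, hi'⟩ ⟨j, hj'⟩ hij'
    · apply Subtype.ext
      funext y
      exact e1 y y.2 _
  have := LinearMap.finrank_range_le (resMap Γ (Set.subset_insert x X) p)
  rw [LinearMap.range_eq_top.2 hsurj, finrank_top] at this
  exact this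

/-- Removing a vertex with exactly three neighbours. -/
lemma RX_remove_three [Fintype T] {Γ : SimpleGraph T} {X : Set T} {x a b c : T} (hx : x ∉ X)
    (hxa : x ≠ a) (hxb : x ≠ b) (hxc : x ≠ c) (hab : a ≠ b) (hac : a ≠ c) (hbc : b ≠ c)
    (hN : ∀ y ∈ X, Γ.Adj x y → y = a ∨ y = b ∨ y = c)
    (h : RX Γ (insert x X)) : RX Γ X := by
  classical
  refine RX_remove hx ?_ h
  have h1 := ae_spans (V := T) (a := x) (b := a) (c := b) (d := c) hxa hxb hxc hab hac hbc
  filter_upwards [h1] with p hs v hv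
  let L : E3 →ₗ[ℝ] (Fin 3 → ℝ) := LinearMap.pi ![innerₛₗ ℝ (p a - p x), innerₛₗ ℝ (p b - p x),
    innerₛₗ ℝ (p c - p x)]
  have hL : Function.Injective L := by
    rw [← LinearMap.ker_eq_bot, LinearMap.ker_eq_bot']
    intro z hz
    apply hs z
    · exact congrFun hz 0
    · exact congrFun hz 1
    · exact congrFun hz 2
  have hs : Function.Surjective L := by
    rw [← LinearMap.injective_iff_surjective_of_finrank_eq_finrank]
    · exact hL
    · simp
  let V' : T → E3 := fun y => if h : y ∈ X then v ⟨y, h⟩ else 0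
  obtain ⟨z, hz⟩ := hs ![⟪p a - p x, V' a⟫, ⟪p b - p x, V' b⟫, ⟪p c - p x, V' c⟫]
  have z0 : ⟪p a - p x, z⟫ = ⟪p a - p x, V' a⟫ := congrFun hz 0
  have z1 : ⟪p b - p x, z⟫ = ⟪p b - p x, V' b⟫ := congrFun hz 1
  have z2 : ⟪p c - p x, z⟫ = ⟪p c - p x, V' c⟫ := congrFun hz 2
  refine ⟨z, ?_⟩
  intro y hy hxy
  have e : v ⟨y, hy⟩ = V' y := by simp [V', hy]
  rw [e, inner_sub_right, sub_eq_zero, ← neg_sub (p y), inner_neg_left, inner_neg_left, neg_inj]
  rcases hN y hy hxy with rfl | rfl | rfl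
  · exact z0
  · exact z1
  · exact z2

/-- Removing a vertex all of whose neighbours lie in a rigid part. -/
lemma RX_remove_body [Fintype T] {Γ : SimpleGraph T} {X B : Set T} {x : T} (hx : x ∉ X)
    (hB : B ⊆ X) (hN : ∀ y ∈ X, Γ.Adj x y → y ∈ B) (h4 : 4 ≤ B.ncard) (hRB : RX Γ B)
    (h : RX Γ (insert x X)) : RX Γ X := by
  classical
  refine RX_remove hx ?_ h
  have hcard : 4 ≤ Fintype.card B := by
    rw [← Nat.card_eq_fintype_card]; exact h4
  obtain ⟨f⟩ : Nonempty (Fin 4 ↪ B) := by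
    rw [Function.Embedding.nonempty_iff_card_le]; simpa using hcard
  have hne : ∀ i j : Fin 4, i ≠ j → (f i : T) ≠ f j := fun i j hij h =>
    hij (f.injective (Subtype.ext h))
  have h1 := ae_spans (V := T) (hne 0 1 (by decide)) (hne 0 2 (by decide)) (hne 0 3 (by decide))
    (hne 1 2 (by decide)) (hne 1 3 (by decide)) (hne 2 3 (by decide))
  filter_upwards [h1, hRB.ae] with p hs hm v hv
  have hF := Flex_eq_range_triv (p := fun x : B => p x) ⟨f 0, f 1, f 2, f 3, hs⟩ hm
  have hmem := restrict_mem hB hv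
  rw [hF] at hmem
  obtain ⟨z, hz⟩ := hmem
  refine ⟨K z.1 (p x) + z.2, ?_⟩
  intro y hy hxy
  have hyB := hN y hy hxy
  have e : K z.1 (p y) + z.2 = v ⟨y, hy⟩ := congrFun hz ⟨y, hyB⟩
  rw [← e, add_sub_add_right_eq_sub, ← map_sub]
  exact inner_crossE_self _ _

end Pool.Agent.H26R

end KernelBasicPart

section KernelPart

/-!
The kernel theorem for modular partitions.
-/

open Module MeasureTheory
open scoped RealInnerProductSpace

namespace Pool.Agent.H26R

variable {T ι : Type*}

/-- edges inside a vertex set -/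
def edgesIn (Γ : SimpleGraph T) (M : Set T) : Set (Sym2 T) := {e | e ∈ Γ.edgeSet ∧ ∀ v ∈ e, v ∈ M}

lemma edgesIn_eq (Γ : SimpleGraph T) (M : Set T) :
    edgesIn Γ M = Sym2.map Subtype.val '' (Γ.induce M).edgeSet := by
  ext e
  induction e with | h a b => ?_
  constructor
  · rintro ⟨h1, h2⟩
    refine ⟨s(⟨a, h2 a (by simp)⟩, ⟨b, h2 b (by simp)⟩), ?_, rfl⟩
    exact h1
  · rintro ⟨f, hf, hfe⟩
    induction f with | h c d => ?_
    rw [← hfe]
    refine ⟨hf, ?_⟩
    intro v hv
    rw [Sym2.map_mk, Sym2.mem_iff] at hv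
    rcases hv with rfl | rfl
    · exact c.2
    · exact d.2

lemma ncard_edgesIn (Γ : SimpleGraph T) (M : Set T) :
    (edgesIn Γ M).ncard = (Γ.induce M).edgeSet.ncard := by
  rw [edgesIn_eq]
  exact Set.ncard_image_of_injective _ (Sym2.map.injective Subtype.val_injective)

lemma edgesIn_mono (Γ : SimpleGraph T) {M N : Set T} (h : M ⊆ N) : edgesIn Γ M ⊆ edgesIn Γ N :=
  fun _ he => ⟨he.1, fun v hv => h (he.2 v hv)⟩

lemma RX_join {Γ : SimpleGraph T} [Finite T] {M N : Set T} (hMN : Disjoint M N)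
    (hadj : ∀ a ∈ M, ∀ b ∈ N, Γ.Adj a b)
    (h : ∃ p, finrank ℝ (Flex (jn (Γ.induce M) (Γ.induce N)) p) ≤ 6) : RX Γ (M ∪ N) := by
  classical
  rw [RX_iff]
  refine exists_of_equiv (Equiv.Set.union hMN).symm ?_ h
  rintro (⟨a, ha⟩ | ⟨a, ha⟩) (⟨b, hb⟩ | ⟨b, hb⟩) hab
  · have : Γ.Adj a b := by simpa using hab
    exact this
  · exact hadj a ha b hb
  · exact (hadj b hb a ha).symm
  · have : Γ.Adj a b := by simpa using hab
    exact this

lemma RX_univ {Γ : SimpleGraph T} [Finite T] :
    RX Γ Set.univ ↔ ∃ p, finrank ℝ (Flex Γ p) ≤ 6 := by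
  rw [RX_iff]
  constructor
  · exact exists_of_equiv (Equiv.Set.univ T) (fun i j hij => hij)
  · exact exists_of_equiv (Equiv.Set.univ T).symm (fun i j hij => hij)

section kernel
variable [Fintype T] (Γ : SimpleGraph T) (π : T → ι)

/-- One step of the reduction. -/
lemma step (hmod : ∀ x y z, π x = π y → π z ≠ π x → Γ.Adj x z → Γ.Adj y z)
    (hN3 : ∀ x, 3 ≤ {z | π z ≠ π x ∧ Γ.Adj x z}.ncard) (U : Set T)
    (hU1 : ∀ x, min {z | π z = π x}.ncard 6 ≤ {z | z ∈ U ∧ π z = π x}.ncard)
    (hU2 : ∀ x, min (edgesIn Γ {z | π z = π x}).ncard 3 ≤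
      (edgesIn Γ {z | z ∈ U ∧ π z = π x}).ncard)
    (X : Set T) (hUX : U ⊆ X) (x : T) (hx : x ∉ X) : RX Γ (insert x X) ↔ RX Γ X := by
  classical
  have big : ∀ z, z ∉ X → 6 ≤ {y | y ∈ U ∧ π y = π z}.ncard := by
    intro z hz
    have h1 := hU1 z
    have h2 : {y | y ∈ U ∧ π y = π z}.ncard < {y | π y = π z}.ncard := by
      apply Set.ncard_lt_ncard _ (Set.toFinite _)
      refine ⟨fun y hy => hy.2, fun hsub => ?_⟩
      exact hz (hUX (hsub (show z ∈ {y | π y = π z} from rfl)).1)
    rcases le_total {y | π y = π z}.ncard 6 with h | h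
    · rw [min_eq_left h] at h1
      omega
    · rw [min_eq_right h] at h1
      exact h1
  set M : Set T := {z | z ∈ X ∧ π z = π x} with hM
  set N : Set T := {z | z ∈ X ∧ π z ≠ π x ∧ Γ.Adj x z} with hN
  have hM6 : 6 ≤ M.ncard := by
    refine (big x hx).trans (Set.ncard_le_ncard ?_ (Set.toFinite _))
    exact fun y hy => ⟨hUX hy.1, hy.2⟩
  have hN3' : 3 ≤ N.ncard ∧ (N.ncard = 3 → N = {z | π z ≠ π x ∧ Γ.Adj x z}) := by
    by_cases hsub : {z | π z ≠ π x ∧ Γ.Adj x z} ⊆ X
    · have : N = {z | π z ≠ π x ∧ Γ.Adj x z} := by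
        ext z
        exact ⟨fun h => h.2, fun h => ⟨hsub h, h⟩⟩
      exact ⟨by rw [this]; exact hN3 x, fun _ => this⟩
    · rw [Set.not_subset] at hsub
      obtain ⟨z, ⟨hz1, hz2⟩, hzX⟩ := hsub
      have h6 : 6 ≤ N.ncard := by
        refine (big z hzX).trans (Set.ncard_le_ncard ?_ (Set.toFinite _))
        intro y hy
        refine ⟨hUX hy.1, ?_, ?_⟩
        · rw [hy.2]; exact hz1
        · have := hmod z y x hy.2.symm (fun h => hz1 h.symm) hz2.symm
          exact this.symm
      exact ⟨by omega, fun h => by omega⟩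
  have hdisj : Disjoint M N := by
    rw [Set.disjoint_left]
    exact fun y hy hy' => hy'.2.1 hy.2
  have hadj : ∀ a ∈ M, ∀ b ∈ N, Γ.Adj a b := by
    intro a ha b hb
    exact hmod x a b ha.2.symm hb.2.1 hb.2.2
  have hsubX : M ∪ N ⊆ X := by
    rintro y (hy | hy)
    · exact hy.1
    · exact hy.1
  have hNx : ∀ y ∈ X, Γ.Adj x y → y ∈ M ∪ N := by
    intro y hy hxy
    by_cases h : π y = π x
    · exact Or.inl ⟨hy, h⟩
    · exact Or.inr ⟨hy, h, hxy⟩
  have hcard4 : 4 ≤ (M ∪ N).ncard := by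
    have := Set.ncard_le_ncard (s := M) (t := M ∪ N) Set.subset_union_left (Set.toFinite _)
    omega
  have fwd_body : RX Γ (M ∪ N) → RX Γ (insert x X) → RX Γ X :=
    fun hb h => RX_remove_body hx hsubX hNx hcard4 hb h
  constructor
  · by_cases h4 : 4 ≤ N.ncard
    · apply fwd_body
      apply RX_join hdisj hadj
      apply join_big
      · rw [← Nat.card_eq_fintype_card]
        exact le_trans (by norm_num) hM6
      · rw [← Nat.card_eq_fintype_card]
        exact h4
      · rw [← Nat.card_eq_fintype_card, ← Nat.card_eq_fintype_card]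
        have : 10 ≤ M.ncard + N.ncard := by omega
        have e1 : Nat.card M = M.ncard := rfl
        have e2 : Nat.card N = N.ncard := rfl
        omega
    · have hN3eq : N.ncard = 3 := by omega
      by_cases he : 3 ≤ (edgesIn Γ M).ncard
      · apply fwd_body
        apply RX_join hdisj hadj
        apply join_three
        · rw [← Nat.card_eq_fintype_card]
          exact hN3eq
        · rw [← ncard_edgesIn]
          omega
      · obtain ⟨a, b, c, hab, hac, hbc, hNabc⟩ := Set.ncard_eq_three.1 hN3eq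
        have hnoM : ∀ y ∈ M, ¬ Γ.Adj x y := by
          intro y hy hxy
          have h1 := hU2 x
          have h2 : (edgesIn Γ {z | z ∈ U ∧ π z = π x}).ncard ≤ (edgesIn Γ M).ncard := by
            apply Set.ncard_le_ncard _ (Set.toFinite _)
            apply edgesIn_mono
            exact fun z hz => ⟨hUX hz.1, hz.2⟩
          have h3 : (edgesIn Γ M).ncard < (edgesIn Γ {z | π z = π x}).ncard := by
            apply Set.ncard_lt_ncard _ (Set.toFinite _)
            refine ⟨edgesIn_mono Γ (fun z hz => hz.2), fun hsub => ?_⟩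
            have : s(x, y) ∈ edgesIn Γ {z | π z = π x} := by
              refine ⟨hxy, ?_⟩
              intro v hv
              rw [Sym2.mem_iff] at hv
              rcases hv with rfl | rfl
              · rfl
              · exact hy.2
            exact hx ((hsub this).2 x (by simp)).1
          rcases le_total (edgesIn Γ {z | π z = π x}).ncard 3 with h | h
          · rw [min_eq_left h] at h1
            omega
          · rw [min_eq_right h] at h1
            omega
        have hxN : ∀ y, y ∈ N → x ≠ y := fun y hy h => hx (h ▸ hy.1)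
        apply RX_remove_three hx (hxN a (by rw [hNabc]; simp)) (hxN b (by rw [hNabc]; simp))
          (hxN c (by rw [hNabc]; simp)) hab hac hbc
        intro y hy hxy
        rcases hNx y hy hxy with h | h
        · exact absurd hxy (hnoM y h)
        · rw [hNabc] at h
          simpa using h
  · intro h
    obtain ⟨N', hN'sub, hN'card⟩ := Set.exists_subset_card_eq hN3'.1
    obtain ⟨a, b, c, hab, hac, hbc, hN'abc⟩ := Set.ncard_eq_three.1 hN'card
    have ha : a ∈ N := hN'sub (by rw [hN'abc]; simp)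
    have hb : b ∈ N := hN'sub (by rw [hN'abc]; simp)
    have hc : c ∈ N := hN'sub (by rw [hN'abc]; simp)
    exact RX_insert hx ha.1 hb.1 hc.1 hab hac hbc ha.2.2 hb.2.2 hc.2.2 h

lemma steps (hmod : ∀ x y z, π x = π y → π z ≠ π x → Γ.Adj x z → Γ.Adj y z)
    (hN3 : ∀ x, 3 ≤ {z | π z ≠ π x ∧ Γ.Adj x z}.ncard) (U : Set T)
    (hU1 : ∀ x, min {z | π z = π x}.ncard 6 ≤ {z | z ∈ U ∧ π z = π x}.ncard)
    (hU2 : ∀ x, min (edgesIn Γ {z | π z = π x}).ncard 3 ≤
      (edgesIn Γ {z | z ∈ U ∧ π z = π x}).ncard)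
    (D : Finset T) : RX Γ (U ∪ D) ↔ RX Γ U := by
  classical
  induction D using Finset.induction_on with
  | empty => simp
  | insert x D hxD ih =>
    rw [Finset.coe_insert, Set.union_insert]
    by_cases hx : x ∈ U ∪ (D : Set T)
    · rw [Set.insert_eq_of_mem hx]
      exact ih
    · rw [step Γ π hmod hN3 U hU1 hU2 (U ∪ D) Set.subset_union_left x hx]
      exact ih

/-- The kernel theorem. -/
theorem kernel (hT : 4 ≤ Fintype.card T)
    (hmod : ∀ x y z, π x = π y → π z ≠ π x → Γ.Adj x z → Γ.Adj y z)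
    (hN3 : ∀ x, 3 ≤ {z | π z ≠ π x ∧ Γ.Adj x z}.ncard) (U : Set T) [Fintype U]
    (hU1 : ∀ x, min {z | π z = π x}.ncard 6 ≤ {z | z ∈ U ∧ π z = π x}.ncard)
    (hU2 : ∀ x, min (Γ.induce {z | π z = π x}).edgeSet.ncard 3 ≤
      (Γ.induce {z | z ∈ U ∧ π z = π x}).edgeSet.ncard) :
    GenericallyRigid Γ ↔ GenericallyRigid (Γ.induce U) := by
  classical
  have hU4 : 4 ≤ Fintype.card U := by
    rw [← Nat.card_eq_fintype_card]
    change 4 ≤ U.ncard
    by_cases hU : U = Set.univ
    · rw [hU, Set.ncard_univ, Nat.card_eq_fintype_card]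
      exact hT
    · obtain ⟨x, hx⟩ := (Set.ne_univ_iff_exists_notMem U).1 hU
      have h1 := hU1 x
      have h2 : {y | y ∈ U ∧ π y = π x}.ncard < {y | π y = π x}.ncard := by
        apply Set.ncard_lt_ncard _ (Set.toFinite _)
        refine ⟨fun y hy => hy.2, fun hsub => ?_⟩
        exact hx (hsub (show x ∈ {y | π y = π x} from rfl)).1
      have h3 : {y | y ∈ U ∧ π y = π x}.ncard ≤ U.ncard :=
        Set.ncard_le_ncard (fun y hy => hy.1) (Set.toFinite _)
      rcases le_total {y | π y = π x}.ncard 6 with h | h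
      · rw [min_eq_left h] at h1
        omega
      · rw [min_eq_right h] at h1
        omega
  rw [genericallyRigid_iff hT, genericallyRigid_iff hU4, ← RX_univ, ← RX_iff]
  have := steps Γ π hmod hN3 U hU1 (by
    intro x
    rw [ncard_edgesIn, ncard_edgesIn]
    exact hU2 x) (Finset.univ)
  rw [Finset.coe_univ, Set.union_univ] at this
  exact this

/-- choosing the representatives in one part -/
lemma choose_part (F : Set T) : ∃ W : Set T, W ⊆ F ∧ W.ncard ≤ 6 ∧ min F.ncard 6 ≤ W.ncard ∧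
    min (edgesIn Γ F).ncard 3 ≤ (edgesIn Γ W).ncard := by
  classical
  obtain ⟨E, hE, hEc⟩ := Set.exists_subset_card_eq (min_le_left (edgesIn Γ F).ncard 3)
  let P : Finset T := E.toFinset.biUnion (fun e => e.toFinset)
  have hPc : P.card ≤ 6 := by
    refine Finset.card_biUnion_le.trans ?_
    refine (Finset.sum_le_card_nsmul _ _ 2 ?_).trans ?_
    · intro e _
      induction e with | h a b => ?_
      rw [Sym2.toFinset_mk_eq]
      exact Finset.card_le_two
    · rw [← Set.ncard_eq_toFinset_card', hEc]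
      have := min_le_right (edgesIn Γ F).ncard 3
      rw [smul_eq_mul]
      omega
  have hPF : P ⊆ F.toFinset := by
    intro v hv
    rw [Finset.mem_biUnion] at hv
    obtain ⟨e, he, hve⟩ := hv
    rw [Set.mem_toFinset] at he ⊢
    exact (hE he).2 v (by simpa using hve)
  have h1 : P.card ≤ min F.toFinset.card 6 := le_min (Finset.card_le_card hPF) hPc
  obtain ⟨W, hPW, hWF, hWc⟩ := Finset.exists_subsuperset_card_eq hPF h1 (min_le_left _ _)
  refine ⟨W, ?_, ?_, ?_, ?_⟩
  · intro v hv
    have := hWF hv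
    rwa [Set.mem_toFinset] at this
  · rw [Set.ncard_coe_finset, hWc]
    exact min_le_right _ _
  · rw [Set.ncard_coe_finset, hWc, Set.ncard_eq_toFinset_card']
  · rw [← hEc]
    apply Set.ncard_le_ncard _ (Set.toFinite _)
    intro e he
    refine ⟨(hE he).1, fun v hv => ?_⟩
    apply hPW
    rw [Finset.mem_biUnion]
    exact ⟨e, by rwa [Set.mem_toFinset], by simpa using hv⟩

theorem exists_kernel : ∃ U : Set T,
    (∀ x, {z | z ∈ U ∧ π z = π x}.ncard ≤ 6) ∧
    (∀ x, min {z | π z = π x}.ncard 6 ≤ {z | z ∈ U ∧ π z = π x}.ncard) ∧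
    (∀ x, min (Γ.induce {z | π z = π x}).edgeSet.ncard 3 ≤
      (Γ.induce {z | z ∈ U ∧ π z = π x}).edgeSet.ncard) := by
  classical
  choose W hW1 hW2 hW3 hW4 using choose_part Γ
  refine ⟨{z | z ∈ W {y | π y = π z}}, ?_⟩
  have key : ∀ x, {z | z ∈ {z | z ∈ W {y | π y = π z}} ∧ π z = π x} = W {y | π y = π x} := by
    intro x
    ext z
    constructor
    · rintro ⟨h1, h2⟩
      have h1' : z ∈ W {y | π y = π z} := h1
      rwa [h2] at h1'
    · intro h
      have h2 : π z = π x := hW1 _ h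
      refine ⟨?_, h2⟩
      show z ∈ W {y | π y = π z}
      rw [h2]
      exact h
  refine ⟨fun x => ?_, fun x => ?_, fun x => ?_⟩
  · rw [key]; exact hW2 _
  · rw [key]; exact hW3 _
  · rw [← ncard_edgesIn, ← ncard_edgesIn, key]
    exact hW4 _

/-- The flexible case. -/
theorem flexible_of_small (hT : 4 ≤ Fintype.card T)
    (hmod : ∀ x y z, π x = π y → π z ≠ π x → Γ.Adj x z → Γ.Adj y z)
    {x y : T} (hxy : π y ≠ π x) (hnadj : ¬ Γ.Adj x y)
    (hN2 : {z | π z ≠ π x ∧ Γ.Adj x z}.ncard ≤ 2) : ¬ GenericallyRigid Γ := by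
  classical
  rw [genericallyRigid_iff hT]
  have hne : x ≠ y := fun h => hxy (by rw [h])
  let N : Finset T := Finset.univ.filter (fun z => π z ≠ π x ∧ Γ.Adj x z)
  have hNc : N.card ≤ 2 := by
    have : {z | π z ≠ π x ∧ Γ.Adj x z}.ncard = N.card := by
      rw [← Set.ncard_coe_finset]
      congr 1
      ext z
      simp [N]
    rw [← this]
    exact hN2
  have hsub : N ⊆ Finset.univ \ {x, y} := by
    intro z hz
    simp only [N, Finset.mem_filter, Finset.mem_univ, true_and] at hz
    simp only [Finset.mem_sdiff, Finset.mem_univ, Finset.mem_insert, Finset.mem_singleton,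
      true_and, not_or]
    refine ⟨?_, ?_⟩
    · rintro rfl; exact hz.1 rfl
    · rintro rfl; exact hnadj hz.2
  have h2 : 2 ≤ (Finset.univ \ {x, y} : Finset T).card := by
    rw [Finset.card_sdiff_of_subset (Finset.subset_univ _), Finset.card_univ,
      Finset.card_pair hne]
    omega
  obtain ⟨R, hNR, hRs, hRc⟩ := Finset.exists_subsuperset_card_eq hsub hNc h2
  obtain ⟨u, w, huw, hRuw⟩ := Finset.card_eq_two.1 hRc
  have hu : u ≠ x ∧ u ≠ y := by
    have := hRs (show u ∈ R by rw [hRuw]; simp)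
    simpa using this
  have hw : w ≠ x ∧ w ≠ y := by
    have := hRs (show w ∈ R by rw [hRuw]; simp)
    simpa using this
  refine hinge Γ ({z | π z = π x} \ {u, w}) (x := x) (y := y) huw ⟨rfl, ?_⟩ ?_ ?_ ?_ hu.2.symm
    hw.2.symm ?_
  · simp only [Set.mem_insert_iff, Set.mem_singleton_iff, not_or]
    exact ⟨hu.1.symm, hw.1.symm⟩
  · simp
  · simp
  · rintro ⟨h, _⟩; exact hxy h
  · rintro a ⟨ha, _⟩ b hb hab
    by_cases hbx : π b = π x
    · by_contra hcon
      apply hb
      refine ⟨hbx, ?_⟩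
      simpa using hcon
    · have h1 : Γ.Adj x b := hmod a x b ha (fun h => hbx (h.trans ha)) hab
      have h2 : b ∈ R := hNR (by simp [N, hbx, h1])
      rw [hRuw] at h2
      simpa using h2

end kernel

end Pool.Agent.H26R

end KernelPart

section ModularKernelStatementPart

set_option autoImplicit false

open Pool.Agent.H26R

namespace Pool.Agent.H26R.ModularKernel

/-- **A linear kernel for modular partitions.** Let `Γ` be a graph on at least four vertices whose
vertex set is partitioned, by the fibres of `π`, into modules: vertices of the same part have the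
same neighbours outside the part.

(1) If some vertex `x` has at most two neighbours outside its part and some vertex `y` outside the
part of `x` is not adjacent to `x`, then `Γ` is not generically rigid in 3D.

(2) Otherwise, if each vertex has at least three neighbours outside its part, then `Γ` is
generically rigid in 3D iff the subgraph induced on `U` is, for every vertex set `U` that contains
from each part `F` at least `min (card F) 6` vertices, among which there are at least
`min (number of edges inside F) 3` edges; and there is such a `U` with at most six vertices in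
each part. -/
theorem modularKernel {T ι : Type*} [Fintype T] (Γ : SimpleGraph T) (π : T → ι)
    (hT : 4 ≤ Fintype.card T)
    (hmod : ∀ x y z, π x = π y → π z ≠ π x → Γ.Adj x z → Γ.Adj y z) :
    (∀ x y, π y ≠ π x → ¬ Γ.Adj x y → {z | π z ≠ π x ∧ Γ.Adj x z}.ncard ≤ 2 →
      ¬ GenericallyRigid Γ) ∧
    ((∀ x, 3 ≤ {z | π z ≠ π x ∧ Γ.Adj x z}.ncard) →
      (∀ (U : Set T) [Fintype U],
        (∀ x, min {z | π z = π x}.ncard 6 ≤ {z | z ∈ U ∧ π z = π x}.ncard) →
        (∀ x, min (Γ.induce {z | π z = π x}).edgeSet.ncard 3 ≤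
          (Γ.induce {z | z ∈ U ∧ π z = π x}).edgeSet.ncard) →
        (GenericallyRigid Γ ↔ GenericallyRigid (Γ.induce U))) ∧
      ∃ U : Set T, (∀ x, {z | z ∈ U ∧ π z = π x}.ncard ≤ 6) ∧
        (∀ x, min {z | π z = π x}.ncard 6 ≤ {z | z ∈ U ∧ π z = π x}.ncard) ∧
        (∀ x, min (Γ.induce {z | π z = π x}).edgeSet.ncard 3 ≤
          (Γ.induce {z | z ∈ U ∧ π z = π x}).edgeSet.ncard)) :=
  ⟨fun _ _ h1 h2 h3 => flexible_of_small Γ π hT hmod h1 h2 h3,
    fun hN3 => ⟨fun U _ hU1 hU2 => kernel Γ π hT hmod hN3 U hU1 hU2, exists_kernel Γ π⟩⟩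

end Pool.Agent.H26R.ModularKernel

end ModularKernelStatementPart
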