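import Pool.Agent.Lib.MP_37c7bf_co_helper26.Generic

section Join4Part

/-!
Infinitesimally rigid realizations of joins, both sides having at least four vertices.
-/

open Module
open scoped RealInnerProductSpace

namespace Pool.Agent.H26R

/-! ### Placing points -/

lemma exists_pos {T : Type*} {m : ℕ} (i j : Fin 4 → T) (e : Fin m → T)
    (hi : Function.Injective i) (hj : Function.Injective j) (he : Function.Injective e)
    (hij : ∀ a b, i a ≠ j b) (hie : ∀ a b, i a ≠ e b) (hje : ∀ a b, j a ≠ e b)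
    (Pi Pj : Fin 4 → E3) (Pe : Fin m → E3) :
    ∃ p : T → E3, (∀ k, p (i k) = Pi k) ∧ (∀ k, p (j k) = Pj k) ∧ (∀ k, p (e k) = Pe k) := by
  have hinj : Function.Injective (Sum.elim (Sum.elim i j) e) := by
    apply Function.Injective.sumElim (hi.sumElim hj hij) he
    rintro (a | a) b
    · exact hie a b
    · exact hje a b
  refine ⟨Function.extend (Sum.elim (Sum.elim i j) e) (Sum.elim (Sum.elim Pi Pj) Pe) 0,
    fun k => ?_, fun k => ?_, fun k => ?_⟩
  · exact hinj.extend_apply (Sum.elim (Sum.elim Pi Pj) Pe) 0 (Sum.inl (Sum.inl k))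
  · exact hinj.extend_apply (Sum.elim (Sum.elim Pi Pj) Pe) 0 (Sum.inl (Sum.inr k))
  · exact hinj.extend_apply (Sum.elim (Sum.elim Pi Pj) Pe) 0 (Sum.inr k)

/-- The frame. -/
noncomputable def frameP : Fin 4 → E3 :=
  ![0, EuclideanSpace.single 0 1, EuclideanSpace.single 1 1, EuclideanSpace.single 2 1]

noncomputable def otherP : Fin 4 → E3 :=
  ![!₂[1/2, 0, 0], !₂[0, 1/2, 0], !₂[0, 0, 1/2], !₂[1/2, 1/2, 0]]

noncomputable def otherP' : Fin 4 → E3 :=
  ![!₂[1/2, 0, 0], !₂[0, 0, 1/2], !₂[1/2, 1/2, 0], !₂[0, 1/3, 1/3]]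

lemma span_otherP (δ : E3) (κ : ℝ) (h0 : ⟪otherP 0, δ⟫ = κ) (h1 : ⟪otherP 1, δ⟫ = κ)
    (h2 : ⟪otherP 2, δ⟫ = κ) (h3 : ⟪otherP 3, δ⟫ = κ) : δ = 0 ∧ κ = 0 := by
  rw [inner_E3] at h0 h1 h2 h3
  simp [otherP] at h0 h1 h2 h3
  have hκ : κ = 0 := by linarith
  refine ⟨e3_ext fun k => ?_, hκ⟩
  fin_cases k
  · change δ 0 = 0; linarith
  · change δ 1 = 0; linarith
  · change δ 2 = 0; linarith

lemma span_otherP' (δ : E3) (κ : ℝ) (h0 : ⟪otherP' 0, δ⟫ = κ) (h1 : ⟪otherP' 1, δ⟫ = κ)
    (h2 : ⟪otherP' 2, δ⟫ = κ) (h3 : ⟪otherP' 3, δ⟫ = κ) : δ = 0 ∧ κ = 0 := by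
  rw [inner_E3] at h0 h1 h2 h3
  simp [otherP'] at h0 h1 h2 h3
  have hκ : κ = 0 := by linarith
  refine ⟨e3_ext fun k => ?_, hκ⟩
  fin_cases k
  · change δ 0 = 0; linarith
  · change δ 1 = 0; linarith
  · change δ 2 = 0; linarith

lemma fin6_ext {a : Fin 6 → ℝ} (h0 : a 0 = 0) (h1 : a 1 = 0) (h2 : a 2 = 0) (h3 : a 3 = 0)
    (h4 : a 4 = 0) (h5 : a 5 = 0) : a = 0 := by
  ext k; fin_cases k
  · exact h0
  · exact h1
  · exact h2
  · exact h3
  · exact h4
  · exact h5

section
variable {T : Type*} [Finite T] {Γ : SimpleGraph T} (isB : T → Prop)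
  (hcross : ∀ s t, isB s → ¬ isB t → Γ.Adj s t)
  (i j : Fin 4 → T) (hi : Function.Injective i) (hj : Function.Injective j)
  (hiB : ∀ k, ¬ isB (i k)) (hjB : ∀ k, isB (j k))

include hcross hi hj hiB hjB

lemma rig_R1 (e : Fin 2 → T) (he : Function.Injective e) (hie : ∀ a b, i a ≠ e b)
    (hje : ∀ a b, j a ≠ e b) : ∃ p, finrank ℝ (Flex Γ p) ≤ 6 := by
  have hij : ∀ a b, i a ≠ j b := fun a b h => hiB a (h ▸ hjB b)
  obtain ⟨p, hpi, hpj, hpe⟩ := exists_pos i j e hi hj he hij hie hje frameP otherP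
    ![!₂[1/2, 0, 1/2], !₂[0, 1/2, 1/2]]
  refine ⟨p, ?_⟩
  apply finrank_le_of_core4 (i 0) (i 1) (i 2) (i 3) (j 0) (j 1) (j 2) (j 3) (hpi 0) (hpi 1)
    (hpi 2) (hpi 3) isB
    (fun t ht => ⟨hcross _ _ ht (hiB 0), hcross _ _ ht (hiB 1), hcross _ _ ht (hiB 2),
      hcross _ _ ht (hiB 3)⟩)
    (fun t ht => ⟨(hcross _ _ (hjB 0) ht).symm, (hcross _ _ (hjB 1) ht).symm,
      (hcross _ _ (hjB 2) ht).symm, (hcross _ _ (hjB 3) ht).symm⟩)
    (hjB 0) (hjB 1) (hjB 2) (hjB 3)
  · rw [hpj, hpj, hpj, hpj]; exact span_otherP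
  · intro a hc _ _
    have c0 := hc (j 0)
    have c1 := hc (j 1)
    have c2 := hc (j 2)
    have c3 := hc (j 3)
    have c4 := hc (e 0)
    have c5 := hc (e 1)
    rw [hpj] at c0 c1 c2 c3
    rw [hpe] at c4 c5
    simp [CQ, otherP] at c0 c1 c2 c3 c4 c5
    norm_num at c0 c1 c2 c3 c4 c5
    have d0 : a 0 = 0 := by linarith
    have d2 : a 2 = 0 := by linarith
    have d5 : a 5 = 0 := by linarith
    have d1 : a 1 = 0 := by linarith
    have d3 : a 3 = 0 := by linarith
    have d4 : a 4 = 0 := by linarith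
    exact fin6_ext d0 d1 d2 d3 d4 d5

lemma rig_R2 (e : T) (hie : ∀ a, i a ≠ e) (hje : ∀ a, j a ≠ e) (hadj : Γ.Adj (i 1) (i 3)) :
    ∃ p, finrank ℝ (Flex Γ p) ≤ 6 := by
  have hij : ∀ a b, i a ≠ j b := fun a b h => hiB a (h ▸ hjB b)
  obtain ⟨p, hpi, hpj, hpe⟩ := exists_pos i j (fun _ : Fin 1 => e) hi hj
    (fun _ _ _ => Subsingleton.elim _ _) hij (fun a _ => hie a) (fun a _ => hje a) frameP otherP
    (fun _ => !₂[0, 1/2, 1/2])
  refine ⟨p, ?_⟩
  apply finrank_le_of_core4 (i 0) (i 1) (i 2) (i 3) (j 0) (j 1) (j 2) (j 3) (hpi 0) (hpi 1)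
    (hpi 2) (hpi 3) isB
    (fun t ht => ⟨hcross _ _ ht (hiB 0), hcross _ _ ht (hiB 1), hcross _ _ ht (hiB 2),
      hcross _ _ ht (hiB 3)⟩)
    (fun t ht => ⟨(hcross _ _ (hjB 0) ht).symm, (hcross _ _ (hjB 1) ht).symm,
      (hcross _ _ (hjB 2) ht).symm, (hcross _ _ (hjB 3) ht).symm⟩)
    (hjB 0) (hjB 1) (hjB 2) (hjB 3)
  · rw [hpj, hpj, hpj, hpj]; exact span_otherP
  · intro a hc hA _
    have c0 := hc (j 0)
    have c1 := hc (j 1)
    have c2 := hc (j 2)
    have c3 := hc (j 3)
    have c4 := hc e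
    have c5 := hA _ _ (hiB 1) (hiB 3) hadj
    rw [hpj] at c0 c1 c2 c3
    rw [hpe 0] at c4
    rw [hpi, hpi, inner_E3] at c5
    simp [CQ, otherP] at c0 c1 c2 c3 c4
    simp [FA, frameP] at c5
    norm_num at c0 c1 c2 c3 c4 c5
    have d0 : a 0 = 0 := by linarith
    have d2 : a 2 = 0 := by linarith
    have d5 : a 5 = 0 := by linarith
    have d1 : a 1 = 0 := by linarith
    have d3 : a 3 = 0 := by linarith
    have d4 : a 4 = 0 := by linarith
    exact fin6_ext d0 d1 d2 d3 d4 d5

lemma rig_R3a (h31 : Γ.Adj (i 3) (i 1)) (h32 : Γ.Adj (i 3) (i 2)) :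
    ∃ p, finrank ℝ (Flex Γ p) ≤ 6 := by
  have hij : ∀ a b, i a ≠ j b := fun a b h => hiB a (h ▸ hjB b)
  obtain ⟨p, hpi, hpj, -⟩ := exists_pos i j (fun k : Fin 0 => k.elim0) hi hj
    (fun k => k.elim0) hij (fun a k => k.elim0) (fun a k => k.elim0) frameP otherP
    (fun k => k.elim0)
  refine ⟨p, ?_⟩
  apply finrank_le_of_core4 (i 0) (i 1) (i 2) (i 3) (j 0) (j 1) (j 2) (j 3) (hpi 0) (hpi 1)
    (hpi 2) (hpi 3) isB
    (fun t ht => ⟨hcross _ _ ht (hiB 0), hcross _ _ ht (hiB 1), hcross _ _ ht (hiB 2),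
      hcross _ _ ht (hiB 3)⟩)
    (fun t ht => ⟨(hcross _ _ (hjB 0) ht).symm, (hcross _ _ (hjB 1) ht).symm,
      (hcross _ _ (hjB 2) ht).symm, (hcross _ _ (hjB 3) ht).symm⟩)
    (hjB 0) (hjB 1) (hjB 2) (hjB 3)
  · rw [hpj, hpj, hpj, hpj]; exact span_otherP
  · intro a hc hA _
    have c0 := hc (j 0)
    have c1 := hc (j 1)
    have c2 := hc (j 2)
    have c3 := hc (j 3)
    have c4 := hA _ _ (hiB 3) (hiB 1) h31
    have c5 := hA _ _ (hiB 3) (hiB 2) h32
    rw [hpj] at c0 c1 c2 c3
    rw [hpi, hpi, inner_E3] at c4 c5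
    simp [CQ, otherP] at c0 c1 c2 c3
    simp [FA, frameP] at c4 c5
    norm_num at c0 c1 c2 c3 c4 c5
    have d0 : a 0 = 0 := by linarith
    have d2 : a 2 = 0 := by linarith
    have d5 : a 5 = 0 := by linarith
    have d1 : a 1 = 0 := by linarith
    have d3 : a 3 = 0 := by linarith
    have d4 : a 4 = 0 := by linarith
    exact fin6_ext d0 d1 d2 d3 d4 d5

lemma rig_R3b (h13 : Γ.Adj (i 1) (i 3)) (h02 : Γ.Adj (i 0) (i 2)) :
    ∃ p, finrank ℝ (Flex Γ p) ≤ 6 := by
  have hij : ∀ a b, i a ≠ j b := fun a b h => hiB a (h ▸ hjB b)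
  obtain ⟨p, hpi, hpj, -⟩ := exists_pos i j (fun k : Fin 0 => k.elim0) hi hj
    (fun k => k.elim0) hij (fun a k => k.elim0) (fun a k => k.elim0) frameP otherP'
    (fun k => k.elim0)
  refine ⟨p, ?_⟩
  apply finrank_le_of_core4 (i 0) (i 1) (i 2) (i 3) (j 0) (j 1) (j 2) (j 3) (hpi 0) (hpi 1)
    (hpi 2) (hpi 3) isB
    (fun t ht => ⟨hcross _ _ ht (hiB 0), hcross _ _ ht (hiB 1), hcross _ _ ht (hiB 2),
      hcross _ _ ht (hiB 3)⟩)
    (fun t ht => ⟨(hcross _ _ (hjB 0) ht).symm, (hcross _ _ (hjB 1) ht).symm,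
      (hcross _ _ (hjB 2) ht).symm, (hcross _ _ (hjB 3) ht).symm⟩)
    (hjB 0) (hjB 1) (hjB 2) (hjB 3)
  · rw [hpj, hpj, hpj, hpj]; exact span_otherP'
  · intro a hc hA _
    have c0 := hc (j 0)
    have c1 := hc (j 1)
    have c2 := hc (j 2)
    have c3 := hc (j 3)
    have c4 := hA _ _ (hiB 1) (hiB 3) h13
    have c5 := hA _ _ (hiB 0) (hiB 2) h02
    rw [hpj] at c0 c1 c2 c3
    rw [hpi, hpi, inner_E3] at c4 c5
    simp [CQ, otherP'] at c0 c1 c2 c3
    simp [FA, frameP] at c4 c5
    norm_num at c0 c1 c2 c3 c4 c5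
    have d0 : a 0 = 0 := by linarith
    have d2 : a 2 = 0 := by linarith
    have d5 : a 5 = 0 := by linarith
    have d1 : a 1 = 0 := by linarith
    have d3 : a 3 = 0 := by linarith
    have d4 : a 4 = 0 := by linarith
    exact fin6_ext d0 d1 d2 d3 d4 d5

lemma rig_R3c (h13 : Γ.Adj (i 1) (i 3)) (h12 : Γ.Adj (j 1) (j 2)) :
    ∃ p, finrank ℝ (Flex Γ p) ≤ 6 := by
  have hij : ∀ a b, i a ≠ j b := fun a b h => hiB a (h ▸ hjB b)
  obtain ⟨p, hpi, hpj, -⟩ := exists_pos i j (fun k : Fin 0 => k.elim0) hi hj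
    (fun k => k.elim0) hij (fun a k => k.elim0) (fun a k => k.elim0) frameP otherP
    (fun k => k.elim0)
  refine ⟨p, ?_⟩
  apply finrank_le_of_core4 (i 0) (i 1) (i 2) (i 3) (j 0) (j 1) (j 2) (j 3) (hpi 0) (hpi 1)
    (hpi 2) (hpi 3) isB
    (fun t ht => ⟨hcross _ _ ht (hiB 0), hcross _ _ ht (hiB 1), hcross _ _ ht (hiB 2),
      hcross _ _ ht (hiB 3)⟩)
    (fun t ht => ⟨(hcross _ _ (hjB 0) ht).symm, (hcross _ _ (hjB 1) ht).symm,
      (hcross _ _ (hjB 2) ht).symm, (hcross _ _ (hjB 3) ht).symm⟩)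
    (hjB 0) (hjB 1) (hjB 2) (hjB 3)
  · rw [hpj, hpj, hpj, hpj]; exact span_otherP
  · intro a hc hA hB
    have c0 := hc (j 0)
    have c1 := hc (j 1)
    have c2 := hc (j 2)
    have c3 := hc (j 3)
    have c4 := hA _ _ (hiB 1) (hiB 3) h13
    have c5 := hB _ _ (hjB 1) (hjB 2) h12
    rw [hpj] at c0 c1 c2 c3
    rw [hpi, hpi, inner_E3] at c4
    rw [hpj, hpj, inner_E3] at c5
    simp [CQ, otherP] at c0 c1 c2 c3
    simp [FA, frameP] at c4
    simp [UB, otherP] at c5
    norm_num at c0 c1 c2 c3 c4 c5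
    have d0 : a 0 = 0 := by linarith
    have d2 : a 2 = 0 := by linarith
    have d5 : a 5 = 0 := by linarith
    have d1 : a 1 = 0 := by linarith
    have d3 : a 3 = 0 := by linarith
    have d4 : a 4 = 0 := by linarith
    exact fin6_ext d0 d1 d2 d3 d4 d5

end

end Pool.Agent.H26R

end Join4Part

section JoinBigPart

/-!
Joins with at least four vertices on both sides.
-/

open Module
open scoped RealInnerProductSpace

namespace Pool.Agent.H26R

/-- The join of two graphs. -/
abbrev jn {V W : Type*} (G : SimpleGraph V) (H : SimpleGraph W) : SimpleGraph (V ⊕ W) :=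
  (G ⊕g H) ⊔ completeBipartiteGraph V W

section
variable {V W : Type*} {G : SimpleGraph V} {H : SimpleGraph W}

@[simp] lemma jn_inl_inl {a b : V} : (jn G H).Adj (Sum.inl a) (Sum.inl b) ↔ G.Adj a b := by
  simp [jn]

@[simp] lemma jn_inr_inr {a b : W} : (jn G H).Adj (Sum.inr a) (Sum.inr b) ↔ H.Adj a b := by
  simp [jn]

@[simp] lemma jn_inl_inr {a : V} {b : W} : (jn G H).Adj (Sum.inl a) (Sum.inr b) := by
  simp [jn]

@[simp] lemma jn_inr_inl {a : V} {b : W} : (jn G H).Adj (Sum.inr b) (Sum.inl a) := by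
  simp [jn]

/-- Swapping the sides. -/
def jnSwap (G : SimpleGraph V) (H : SimpleGraph W) : jn G H ≃g jn H G where
  toEquiv := Equiv.sumComm V W
  map_rel_iff' := by
    rintro (a | a) (b | b) <;> simp

lemma exists_of_iso {T T' : Type*} [Finite T] {Γ : SimpleGraph T} {Γ' : SimpleGraph T'}
    (φ : Γ ≃g Γ') (h : ∃ p, finrank ℝ (Flex Γ p) ≤ 6) : ∃ p, finrank ℝ (Flex Γ' p) ≤ 6 := by
  obtain ⟨p, hp⟩ := h
  refine ⟨fun t => p (φ.symm t), ?_⟩
  let L : (T' → E3) →ₗ[ℝ] (T → E3) := LinearMap.funLeft ℝ E3 φ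
  have hL : Function.Injective L := by
    apply LinearMap.funLeft_injective_of_surjective
    exact φ.surjective
  have hmap : ∀ v ∈ Flex Γ' (fun t => p (φ.symm t)), L v ∈ Flex Γ p := by
    intro v hv
    rw [mem_Flex]
    intro i j hij
    have := mem_Flex.1 hv (φ i) (φ j) (φ.map_adj_iff.2 hij)
    simpa [L] using this
  have hinj : Function.Injective (L.restrict hmap) := by
    intro x y hxy
    apply Subtype.ext
    apply hL
    exact congrArg Subtype.val hxy
  exact (LinearMap.finrank_le_finrank_of_injective hinj).trans hp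

lemma exists_two_others {V : Type*} [Fintype V] (hV : 4 ≤ Fintype.card V) {x y : V}
    (hxy : x ≠ y) :
    ∃ z w : V, z ≠ x ∧ z ≠ y ∧ w ≠ x ∧ w ≠ y ∧ w ≠ z := by
  classical
  have h1 : ∃ z, z ∉ ({x, y} : Finset V) := by
    by_contra hcon
    push Not at hcon
    have : (Finset.univ : Finset V) ⊆ {x, y} := fun z _ => hcon z
    have h2 := Finset.card_le_card this
    have h3 := Finset.card_le_two (a := x) (b := y)
    rw [Finset.card_univ] at h2
    omega
  obtain ⟨z, hz⟩ := h1
  have h2 : ∃ w, w ∉ ({x, y, z} : Finset V) := by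
    by_contra hcon
    push Not at hcon
    have : (Finset.univ : Finset V) ⊆ {x, y, z} := fun z _ => hcon z
    have h2 := Finset.card_le_card this
    have h3 := Finset.card_le_three (a := x) (b := y) (c := z)
    rw [Finset.card_univ] at h2
    omega
  obtain ⟨w, hw⟩ := h2
  simp only [Finset.mem_insert, Finset.mem_singleton, not_or] at hz hw
  exact ⟨z, w, hz.1, hz.2, hw.1, hw.2.1, hw.2.2⟩

lemma vec4_injective {V : Type*} {a b c d : V} (hab : a ≠ b) (hac : a ≠ c) (had : a ≠ d)
    (hbc : b ≠ c) (hbd : b ≠ d) (hcd : c ≠ d) : Function.Injective ![a, b, c, d] := by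
  intro i j h
  fin_cases i <;> fin_cases j <;> simp_all

section side
variable [Fintype V] [Fintype W]

lemma inlComp_injective {i : Fin 4 → V} (hi : Function.Injective i) :
    Function.Injective (fun k => (Sum.inl (i k) : V ⊕ W)) :=
  Sum.inl_injective.comp hi

lemma inrComp_injective {j : Fin 4 → W} (hj : Function.Injective j) :
    Function.Injective (fun k => (Sum.inr (j k) : V ⊕ W)) :=
  Sum.inr_injective.comp hj

lemma hcross_right : ∀ s t : V ⊕ W, s.isRight = true → ¬ t.isRight = true → (jn G H).Adj s t := by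
  rintro (a | a) (b | b) hs ht
  · simp at hs
  · simp at hs
  · simp
  · simp at ht

/-- An edge in `G` together with nine vertices. -/
lemma big_edge_vertex (hV : 4 ≤ Fintype.card V) (hW : 4 ≤ Fintype.card W)
    (hn : 9 ≤ Fintype.card V + Fintype.card W) {x y : V} (hxy : G.Adj x y) :
    ∃ p, finrank ℝ (Flex (jn G H) p) ≤ 6 := by
  classical
  obtain ⟨z, w, hzx, hzy, hwx, hwy, hwz⟩ := exists_two_others hV hxy.ne
  have hi : Function.Injective ![z, x, w, y] :=
    vec4_injective hzx hwz.symm hzy hwx.symm hxy.ne hwy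
  obtain ⟨j⟩ : Nonempty (Fin 4 ↪ W) := by
    rw [Function.Embedding.nonempty_iff_card_le]; simpa using hW
  -- a ninth vertex
  let s : Finset (V ⊕ W) := (Finset.univ.image (fun k => (Sum.inl (![z, x, w, y] k) : V ⊕ W))) ∪
    (Finset.univ.image (fun k => (Sum.inr (j k) : V ⊕ W)))
  have hs : s.card ≤ 8 := by
    refine (Finset.card_union_le _ _).trans
      ((Nat.add_le_add Finset.card_image_le Finset.card_image_le).trans ?_)
    simp
  obtain ⟨e, he⟩ : ∃ e, e ∉ s := by
    by_contra hcon
    push Not at hcon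
    have h1 : (Finset.univ : Finset (V ⊕ W)) ⊆ s := fun z _ => hcon z
    have h2 := Finset.card_le_card h1
    rw [Finset.card_univ, Fintype.card_sum] at h2
    omega
  refine rig_R2 (fun t : V ⊕ W => t.isRight = true) hcross_right
    (fun k => Sum.inl (![z, x, w, y] k)) (fun k => Sum.inr (j k)) (inlComp_injective hi)
    (inrComp_injective j.injective) (by simp) (by simp) e ?_ ?_ ?_
  · intro a h
    apply he
    rw [← h]
    exact Finset.mem_union_left _ (Finset.mem_image_of_mem _ (Finset.mem_univ a))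
  · intro a h
    apply he
    rw [← h]
    exact Finset.mem_union_right _ (Finset.mem_image_of_mem _ (Finset.mem_univ a))
  · simpa using hxy

/-- Ten vertices. -/
lemma big_ten (hV : 4 ≤ Fintype.card V) (hW : 4 ≤ Fintype.card W)
    (hn : 10 ≤ Fintype.card V + Fintype.card W) :
    ∃ p, finrank ℝ (Flex (jn G H) p) ≤ 6 := by
  classical
  obtain ⟨i⟩ : Nonempty (Fin 4 ↪ V) := by
    rw [Function.Embedding.nonempty_iff_card_le]; simpa using hV
  obtain ⟨j⟩ : Nonempty (Fin 4 ↪ W) := by
    rw [Function.Embedding.nonempty_iff_card_le]; simpa using hW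
  let s : Finset (V ⊕ W) := (Finset.univ.image (fun k => (Sum.inl (i k) : V ⊕ W))) ∪
    (Finset.univ.image (fun k => (Sum.inr (j k) : V ⊕ W)))
  have hs : s.card ≤ 8 := by
    refine (Finset.card_union_le _ _).trans
      ((Nat.add_le_add Finset.card_image_le Finset.card_image_le).trans ?_)
    simp
  have hsc : 1 < sᶜ.card := by
    rw [Finset.card_compl, Fintype.card_sum]
    omega
  obtain ⟨e1, he1, e2, he2, hne⟩ := Finset.one_lt_card.1 hsc
  rw [Finset.mem_compl] at he1 he2
  refine rig_R1 (fun t : V ⊕ W => t.isRight = true) hcross_right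
    (fun k => Sum.inl (i k)) (fun k => Sum.inr (j k)) (inlComp_injective i.injective)
    (inrComp_injective j.injective) (by simp) (by simp) ![e1, e2] ?_ ?_ ?_
  · intro a b h
    fin_cases a <;> fin_cases b <;> simp_all
  · intro a b h
    fin_cases b
    · apply he1
      have h' : Sum.inl (i a) = e1 := h
      rw [← h']
      exact Finset.mem_union_left _ (Finset.mem_image_of_mem _ (Finset.mem_univ a))
    · apply he2
      have h' : Sum.inl (i a) = e2 := h
      rw [← h']
      exact Finset.mem_union_left _ (Finset.mem_image_of_mem _ (Finset.mem_univ a))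
  · intro a b h
    fin_cases b
    · apply he1
      have h' : Sum.inr (j a) = e1 := h
      rw [← h']
      exact Finset.mem_union_right _ (Finset.mem_image_of_mem _ (Finset.mem_univ a))
    · apply he2
      have h' : Sum.inr (j a) = e2 := h
      rw [← h']
      exact Finset.mem_union_right _ (Finset.mem_image_of_mem _ (Finset.mem_univ a))

/-- Two edges in `G` sharing a vertex. -/
lemma big_two_adjacent (hV : 4 ≤ Fintype.card V) (hW : 4 ≤ Fintype.card W)
    {c x y : V} (hcx : G.Adj c x) (hcy : G.Adj c y) (hxy : x ≠ y) :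
    ∃ p, finrank ℝ (Flex (jn G H) p) ≤ 6 := by
  classical
  have h2 : ∃ w, w ∉ ({x, y, c} : Finset V) := by
    by_contra hcon
    push Not at hcon
    have : (Finset.univ : Finset V) ⊆ {x, y, c} := fun z _ => hcon z
    have h2 := Finset.card_le_card this
    have h3 := Finset.card_le_three (a := x) (b := y) (c := c)
    rw [Finset.card_univ] at h2
    omega
  obtain ⟨z, hz⟩ := h2
  simp only [Finset.mem_insert, Finset.mem_singleton, not_or] at hz
  have hi : Function.Injective ![z, x, y, c] :=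
    vec4_injective hz.1 hz.2.1 hz.2.2 hxy hcx.ne.symm hcy.ne.symm
  obtain ⟨j⟩ : Nonempty (Fin 4 ↪ W) := by
    rw [Function.Embedding.nonempty_iff_card_le]; simpa using hW
  refine rig_R3a (fun t : V ⊕ W => t.isRight = true) hcross_right
    (fun k => Sum.inl (![z, x, y, c] k)) (fun k => Sum.inr (j k)) (inlComp_injective hi)
    (inrComp_injective j.injective) (by simp) (by simp) ?_ ?_
  · simpa using hcx
  · simpa using hcy

/-- Two disjoint edges in `G`. -/
lemma big_two_disjoint (hW : 4 ≤ Fintype.card W)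
    {x y z w : V} (hxy : G.Adj x y) (hzw : G.Adj z w) (h1 : x ≠ z) (h2 : x ≠ w) (h3 : y ≠ z)
    (h4 : y ≠ w) :
    ∃ p, finrank ℝ (Flex (jn G H) p) ≤ 6 := by
  classical
  have hi : Function.Injective ![z, x, w, y] :=
    vec4_injective h1.symm hzw.ne h3.symm h2 hxy.ne h4.symm
  obtain ⟨j⟩ : Nonempty (Fin 4 ↪ W) := by
    rw [Function.Embedding.nonempty_iff_card_le]; simpa using hW
  -- make sure the vertex type is finite
  refine rig_R3b (fun t : V ⊕ W => t.isRight = true) hcross_right
    (fun k => Sum.inl (![z, x, w, y] k)) (fun k => Sum.inr (j k)) (inlComp_injective hi)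
    (inrComp_injective j.injective) (by simp) (by simp) ?_ ?_
  · simpa using hxy
  · simpa using hzw

/-- One edge on each side. -/
lemma big_edge_edge (hV : 4 ≤ Fintype.card V) (hW : 4 ≤ Fintype.card W)
    {x y : V} {z w : W} (hxy : G.Adj x y) (hzw : H.Adj z w) :
    ∃ p, finrank ℝ (Flex (jn G H) p) ≤ 6 := by
  classical
  obtain ⟨a, b, hax, hay, hbx, hby, hba⟩ := exists_two_others hV hxy.ne
  obtain ⟨c, d, hcz, hcw, hdz, hdw, hdc⟩ := exists_two_others hW hzw.ne
  have hi : Function.Injective ![a, x, b, y] :=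
    vec4_injective hax hba.symm hay hbx.symm hxy.ne hby
  have hj : Function.Injective ![c, z, w, d] :=
    vec4_injective hcz hcw hdc.symm hzw.ne hdz.symm hdw.symm
  refine rig_R3c (fun t : V ⊕ W => t.isRight = true) hcross_right
    (fun k => Sum.inl (![a, x, b, y] k)) (fun k => Sum.inr (![c, z, w, d] k))
    (inlComp_injective hi) (inrComp_injective hj) (by simp) (by simp) ?_ ?_
  · simpa using hxy
  · simpa using hzw

/-- Two edges in `G`. -/
lemma big_two_edges (hV : 4 ≤ Fintype.card V) (hW : 4 ≤ Fintype.card W)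
    (h : 2 ≤ G.edgeSet.ncard) : ∃ p, finrank ℝ (Flex (jn G H) p) ≤ 6 := by
  classical
  obtain ⟨e1, e2, he1, he2, hne⟩ := (Set.one_lt_ncard_iff (Set.toFinite _)).1 h
  induction e1 with | h x y => ?_
  induction e2 with | h z w => ?_
  rw [SimpleGraph.mem_edgeSet] at he1 he2
  by_cases h1 : x = z
  · subst h1
    refine big_two_adjacent hV hW he1 he2 ?_
    rintro rfl; exact hne rfl
  by_cases h2 : x = w
  · subst h2
    refine big_two_adjacent hV hW he1 he2.symm ?_
    rintro rfl; exact hne Sym2.eq_swap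
  by_cases h3 : y = z
  · subst h3
    refine big_two_adjacent hV hW he1.symm he2 ?_
    rintro rfl; exact hne Sym2.eq_swap
  by_cases h4 : y = w
  · subst h4
    exact big_two_adjacent hV hW he1.symm he2.symm h1
  exact big_two_disjoint hW he1 he2 h1 h2 h3 h4

theorem join_big (G : SimpleGraph V) (H : SimpleGraph W) (hV : 4 ≤ Fintype.card V)
    (hW : 4 ≤ Fintype.card W)
    (h : 10 ≤ Fintype.card V + Fintype.card W + G.edgeSet.ncard + H.edgeSet.ncard) :
    ∃ p, finrank ℝ (Flex (jn G H) p) ≤ 6 := by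
  by_cases h10 : 10 ≤ Fintype.card V + Fintype.card W
  · exact big_ten hV hW h10
  by_cases hG0 : G.edgeSet.ncard = 0
  · -- all edges in H
    apply exists_of_iso (jnSwap H G)
    by_cases h9 : 9 ≤ Fintype.card V + Fintype.card W
    · have hH : 0 < H.edgeSet.ncard := by omega
      obtain ⟨e, he⟩ := (Set.ncard_pos (Set.toFinite _)).1 hH
      induction e with | h x y => ?_
      exact big_edge_vertex hW hV (by omega) he
    · exact big_two_edges hW hV (by omega)
  by_cases hH0 : H.edgeSet.ncard = 0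
  · by_cases h9 : 9 ≤ Fintype.card V + Fintype.card W
    · have hG : 0 < G.edgeSet.ncard := by omega
      obtain ⟨e, he⟩ := (Set.ncard_pos (Set.toFinite _)).1 hG
      induction e with | h x y => ?_
      exact big_edge_vertex hV hW (by omega) he
    · exact big_two_edges hV hW (by omega)
  obtain ⟨e, he⟩ := (Set.ncard_pos (Set.toFinite _)).1 (Nat.pos_of_ne_zero hG0)
  obtain ⟨f, hf⟩ := (Set.ncard_pos (Set.toFinite _)).1 (Nat.pos_of_ne_zero hH0)
  induction e with | h x y => ?_
  induction f with | h z w => ?_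
  exact big_edge_edge hV hW he hf

end side
end

end Pool.Agent.H26R

end JoinBigPart

section JoinTwoPart

/-!
Sufficiency for joins in which one side has exactly two vertices.
-/

open Module
open scoped RealInnerProductSpace

namespace Pool.Agent.H26R

variable {V W : Type*} {G : SimpleGraph V} {H : SimpleGraph W}

/-- a function constant along edges is constant on a connected graph -/
lemma const_of_connected (hG : G.Preconnected) (θ : V → ℝ) (h : ∀ i j, G.Adj i j → θ i = θ j)
    (i j : V) : θ i = θ j := by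
  obtain ⟨p⟩ := hG i j
  induction p with
  | nil => rfl
  | cons hab _ ih => exact (h _ _ hab).trans ih

lemma walk_first_hit {G' : SimpleGraph V} (θ : V → ℝ) (c : V)
    (h : ∀ i j, G'.Adj i j → i ≠ c → j ≠ c → θ i = θ j) {a b : V} (p : G'.Walk a b) (hb : b = c)
    (ha : a ≠ c) : ∃ y', G'.Adj y' c ∧ y' ≠ c ∧ θ a = θ y' := by
  induction p with
  | nil => exact absurd hb ha
  | @cons a b _ hab q ih =>
    by_cases hbc : b = c
    · subst hbc
      exact ⟨a, hab, ha, rfl⟩
    · obtain ⟨y', h1, h2, h3⟩ := ih hb hbc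
      exact ⟨y', h1, h2, (h _ _ hab ha hbc).trans h3⟩

lemma join_two_core [Finite V] [Finite W] (u w : W) (huw : u ≠ w) (hall : ∀ x, x = u ∨ x = w)
    (hG : G.Connected) (ε : V → ℝ) (hε : ∀ i, ε i = 0 ∨ ε i = 1)
    (t : V → ℝ) (ht : Function.Injective t)
    (hsys : ∀ (θ : V → ℝ) (σ : ℝ),
      (∀ i j, G.Adj i j → (t i - t j) * (θ i - θ j) = (ε i - ε j) ^ 2 * σ) →
      (H.Adj u w → σ = 0) → σ = 0) :
    ∃ p, finrank ℝ (Flex (jn G H) p) ≤ 6 := by
  classical
  obtain ⟨i0⟩ := hG.nonempty
  let p : V ⊕ W → E3 := Sum.elim (fun i => !₂[1, t i, ε i])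
    (fun x => if x = w then EuclideanSpace.single 2 1 else 0)
  refine ⟨p, ?_⟩
  have pu : p (Sum.inr u) = 0 := by simp [p, huw]
  have pw : p (Sum.inr w) = EuclideanSpace.single 2 1 := by simp [p]
  apply finrank_Flex_le_six ![(Sum.inr u, 0), (Sum.inr u, 1), (Sum.inr u, 2),
    (Sum.inr w, 0), (Sum.inr w, 1), (Sum.inl i0, 1)]
  intro v hv hk
  have k0 := hk 0
  have k1 := hk 1
  have k2 := hk 2
  have k3 := hk 3
  have k4 := hk 4
  have k5 := hk 5
  simp at k0 k1 k2 k3 k4 k5
  have gu : v (Sum.inr u) = 0 := by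
    apply e3_ext; intro k; fin_cases k
    · exact k0
    · exact k1
    · exact k2
  set σ : ℝ := v (Sum.inr w) 2 with hσ
  have hform : ∀ i : V, v (Sum.inl i) 0 = - (t i * v (Sum.inl i) 1) ∧
      v (Sum.inl i) 2 = (1 - ε i) * σ := by
    intro i
    have e0 := mem_Flex.1 hv (Sum.inl i) (Sum.inr u) (by simp)
    have e1 := mem_Flex.1 hv (Sum.inl i) (Sum.inr w) (by simp)
    rw [pu, gu, sub_zero, sub_zero, inner_E3] at e0
    rw [pw, inner_E3] at e1
    simp [p] at e0 e1
    rw [k3, k4, ← hσ] at e1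
    have f2 : v (Sum.inl i) 2 = (1 - ε i) * σ := by linear_combination e0 - e1
    refine ⟨?_, f2⟩
    rw [f2] at e0
    rcases hε i with h | h <;> rw [h] at e0 <;> linear_combination e0
  have hedge : ∀ i j, G.Adj i j →
      (t i - t j) * (v (Sum.inl i) 1 - v (Sum.inl j) 1) = (ε i - ε j) ^ 2 * σ := by
    intro i j hij
    have e := mem_Flex.1 hv (Sum.inl i) (Sum.inl j) (by simpa using hij)
    obtain ⟨a0, a2⟩ := hform i
    obtain ⟨b0, b2⟩ := hform j
    rw [inner_E3] at e
    simp [p] at e
    rw [a2, b2] at e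
    linear_combination e
  have euw : H.Adj u w → σ = 0 := by
    intro h
    have e := mem_Flex.1 hv (Sum.inr u) (Sum.inr w) (by simpa using h)
    rw [pu, pw, gu, inner_E3] at e
    simp at e
    exact e
  have hσ0 : σ = 0 := hsys (fun i => v (Sum.inl i) 1) σ hedge euw
  have hθ : ∀ i, v (Sum.inl i) 1 = 0 := by
    intro i
    rw [const_of_connected hG.preconnected (fun i => v (Sum.inl i) 1) ?_ i i0]
    · exact k5
    · intro i j hij
      have := hedge i j hij
      rw [hσ0, mul_zero, mul_eq_zero] at this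
      rcases this with h | h
      · exact absurd (ht (sub_eq_zero.1 h)) hij.ne
      · exact sub_eq_zero.1 h
  ext1 x
  apply e3_ext
  rcases x with i | x
  · obtain ⟨a0, a2⟩ := hform i
    intro k; fin_cases k
    · show v (Sum.inl i) 0 = 0
      rw [a0, hθ i]; simp
    · exact hθ i
    · show v (Sum.inl i) 2 = 0
      rw [a2, hσ0]; simp
  · rcases hall x with rfl | rfl
    · intro k; rw [gu]; rfl
    · intro k; fin_cases k
      · exact k3
      · exact k4
      · exact hσ0

theorem join_two [Fintype V] [Fintype W] (hW : Fintype.card W = 2) (hG : G.Connected)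
    (he : H ≠ ⊥ ∨ ¬ G.IsAcyclic) : ∃ p, finrank ℝ (Flex (jn G H) p) ≤ 6 := by
  classical
  obtain ⟨u, w, huw, hunv⟩ := Finset.card_eq_two.1
    (show (Finset.univ : Finset W).card = 2 by rw [Finset.card_univ, hW])
  have hall : ∀ x, x = u ∨ x = w := by
    intro x
    have := Finset.mem_univ x
    rw [hunv] at this
    simpa using this
  let t : V → ℝ := fun i => ((Fintype.equivFin V i : ℕ) : ℝ)
  have ht : Function.Injective t := by
    intro i j hij
    have : ((Fintype.equivFin V i : ℕ) : ℝ) = ((Fintype.equivFin V j : ℕ) : ℝ) := hij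
    exact (Fintype.equivFin V).injective (Fin.ext (Nat.cast_injective this))
  rcases he with he | he
  · have hadj : H.Adj u w := by
      by_contra hcon
      apply he
      ext a b
      simp only [SimpleGraph.bot_adj, iff_false]
      intro hab
      rcases hall a with rfl | rfl <;> rcases hall b with rfl | rfl
      · exact hab.ne rfl
      · exact hcon hab
      · exact hcon hab.symm
      · exact hab.ne rfl
    exact join_two_core u w huw hall hG (fun _ => 0) (fun _ => Or.inl rfl) t ht
      (fun θ σ _ h => h hadj)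
  · rw [SimpleGraph.isAcyclic_iff_forall_edge_isBridge] at he
    push Not at he
    obtain ⟨e, heG, hbr⟩ := he
    induction e with | h c y => ?_
    rw [SimpleGraph.mem_edgeSet] at heG
    rw [SimpleGraph.isBridge_iff] at hbr
    have hreach : (G.deleteEdges {s(c, y)}).Reachable c y := by
      by_contra hcon
      exact hbr hcon
    obtain ⟨q⟩ := hreach.symm
    refine join_two_core u w huw hall hG (fun i => if i = c then 1 else 0)
      (fun i => by by_cases h : i = c <;> simp [h]) t ht ?_
    intro θ σ hθ _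
    have hne : ∀ i j, G.Adj i j → i ≠ c → j ≠ c → θ i = θ j := by
      intro i j hij hi hj
      have := hθ i j hij
      simp [hi, hj] at this
      rcases this with h | h
      · exact absurd (ht (sub_eq_zero.1 h)) hij.ne
      · exact sub_eq_zero.1 h
    obtain ⟨y', hy'c, hy'ne, hyy'⟩ := walk_first_hit (G' := G.deleteEdges {s(c, y)})
      θ c (fun i j hij => hne i j (SimpleGraph.deleteEdges_adj.1 hij).1) q rfl heG.ne.symm
    rw [SimpleGraph.deleteEdges_adj] at hy'c
    have hy'y : y' ≠ y := by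
      rintro rfl
      exact hy'c.2 Sym2.eq_swap
    have e1 := hθ c y heG
    have e2 := hθ c y' hy'c.1.symm
    simp [heG.ne.symm] at e1
    simp [hy'ne] at e2
    rw [← hyy'] at e2
    have e3 : (t y' - t y) * (θ c - θ y) = 0 := by linear_combination e1 - e2
    rcases mul_eq_zero.1 e3 with h | h
    · exact absurd (ht (sub_eq_zero.1 h)) hy'y
    · rw [h] at e1
      simpa using e1.symm

end Pool.Agent.H26R

end JoinTwoPart

section Join3Part

/-!
Joins in which one side has exactly three vertices.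
-/

open Module
open scoped RealInnerProductSpace

namespace Pool.Agent.H26R

/-- the quadratic form on differences -/
def q3 (U : Fin 3 → ℝ) (σ₁ σ₂ ρ : ℝ) : ℝ :=
  U 0 * U 1 * σ₁ + U 0 * U 2 * σ₂ + U 1 * U 2 * (σ₁ + σ₂ - ρ)

section
variable {V W : Type*} {G : SimpleGraph V} {H : SimpleGraph W}

lemma exists_of_core3 [Finite V] [Finite W] (h0 h1 h2 : W) (h01 : h0 ≠ h1) (h02 : h0 ≠ h2)
    (h12 : h1 ≠ h2) (hall : ∀ w, w = h0 ∨ w = h1 ∨ w = h2) (c : V → Fin 3 → ℝ)
    (hτ : ∀ t, c t 0 + c t 1 + c t 2 ≠ 0)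
    (hsys : ∀ σ₁ σ₂ ρ : ℝ, (∀ t s, G.Adj t s → q3 (c t - c s) σ₁ σ₂ ρ = 0) →
      (H.Adj h0 h1 → σ₁ = 0) → (H.Adj h0 h2 → σ₂ = 0) → (H.Adj h1 h2 → σ₁ + σ₂ - ρ = 0) →
      σ₁ = 0 ∧ σ₂ = 0 ∧ ρ = 0) :
    ∃ p, finrank ℝ (Flex (jn G H) p) ≤ 6 := by
  classical
  let τ : V → ℝ := fun t => c t 0 + c t 1 + c t 2
  let p : V ⊕ W → E3 := Sum.elim (fun t => !₂[c t 1 / τ t, c t 2 / τ t, 1 / τ t])
    (fun w => if w = h1 then EuclideanSpace.single 0 1 else
      if w = h2 then EuclideanSpace.single 1 1 else 0)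
  refine ⟨p, ?_⟩
  have p0 : p (Sum.inr h0) = 0 := by simp [p, h01, h02]
  have p1 : p (Sum.inr h1) = EuclideanSpace.single 0 1 := by simp [p]
  have p2 : p (Sum.inr h2) = EuclideanSpace.single 1 1 := by simp [p, h12.symm]
  apply finrank_Flex_le_six ![(Sum.inr h0, 0), (Sum.inr h0, 1), (Sum.inr h0, 2),
    (Sum.inr h1, 1), (Sum.inr h1, 2), (Sum.inr h2, 2)]
  intro v hv hk
  have k0 := hk 0
  have k1 := hk 1
  have k2 := hk 2
  have k3 := hk 3
  have k4 := hk 4
  have k5 := hk 5
  simp at k0 k1 k2 k3 k4 k5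
  have g0 : v (Sum.inr h0) = 0 := by
    apply e3_ext; intro k; fin_cases k
    · exact k0
    · exact k1
    · exact k2
  set σ₁ : ℝ := v (Sum.inr h1) 0 with hσ₁
  set ρ : ℝ := v (Sum.inr h2) 0 with hρ
  set σ₂ : ℝ := v (Sum.inr h2) 1 with hσ₂
  -- velocities of the vertices of G
  have hform : ∀ t : V, v (Sum.inl t) 0 = σ₁ * (c t 0 + c t 2) / τ t ∧
      v (Sum.inl t) 1 = (σ₂ * (c t 0 + c t 1) - ρ * c t 1) / τ t ∧
      v (Sum.inl t) 2 = - (c t 1 * (σ₁ * (c t 0 + c t 2)) +
        c t 2 * (σ₂ * (c t 0 + c t 1) - ρ * c t 1)) / τ t := by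
    intro t
    have ht : τ t ≠ 0 := hτ t
    have e0 := mem_Flex.1 hv (Sum.inl t) (Sum.inr h0) (by simp)
    have e1 := mem_Flex.1 hv (Sum.inl t) (Sum.inr h1) (by simp)
    have e2 := mem_Flex.1 hv (Sum.inl t) (Sum.inr h2) (by simp)
    rw [p0, g0, sub_zero, sub_zero, inner_E3] at e0
    rw [p1, inner_E3] at e1
    rw [p2, inner_E3] at e2
    simp [p] at e0 e1 e2
    rw [k3, k4, ← hσ₁] at e1
    rw [k5, ← hρ, ← hσ₂] at e2
    have hττ : τ t = c t 0 + c t 1 + c t 2 := rfl
    have f0 : v (Sum.inl t) 0 = σ₁ * (c t 0 + c t 2) / τ t := by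
      have : v (Sum.inl t) 0 = σ₁ * (1 - c t 1 / τ t) := by linear_combination e0 - e1
      rw [this, hττ]
      rw [hττ] at ht
      field_simp
      ring
    have f1 : v (Sum.inl t) 1 = (σ₂ * (c t 0 + c t 1) - ρ * c t 1) / τ t := by
      have : v (Sum.inl t) 1 = σ₂ * (1 - c t 2 / τ t) - ρ * (c t 1 / τ t) := by
        linear_combination e0 - e2
      rw [this, hττ]
      rw [hττ] at ht
      field_simp
      ring
    refine ⟨f0, f1, ?_⟩
    rw [f0, f1] at e0
    field_simp at e0 ⊢
    linear_combination e0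
  have hedge : ∀ t s, G.Adj t s → q3 (c t - c s) σ₁ σ₂ ρ = 0 := by
    intro t s hts
    have e := mem_Flex.1 hv (Sum.inl t) (Sum.inl s) (by simpa using hts)
    obtain ⟨a0, a1, a2⟩ := hform t
    obtain ⟨b0, b1, b2⟩ := hform s
    have ht : τ t ≠ 0 := hτ t
    have hs : τ s ≠ 0 := hτ s
    rw [inner_E3] at e
    simp [p] at e
    rw [a0, a1, a2, b0, b1, b2] at e
    have hττ : c t 0 = τ t - c t 1 - c t 2 := by
      show c t 0 = (c t 0 + c t 1 + c t 2) - c t 1 - c t 2
      ring
    have hτs : c s 0 = τ s - c s 1 - c s 2 := by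
      show c s 0 = (c s 0 + c s 1 + c s 2) - c s 1 - c s 2
      ring
    have hq : q3 (c t - c s) σ₁ σ₂ ρ / (τ t * τ s) = 0 := by
      rw [← e]
      simp only [q3, Pi.sub_apply]
      rw [hττ, hτs]
      generalize τ t = T at ht ⊢
      generalize τ s = S at hs ⊢
      field_simp
      ring
    rw [div_eq_zero_iff] at hq
    exact hq.resolve_right (mul_ne_zero ht hs)
  have e01 : H.Adj h0 h1 → σ₁ = 0 := by
    intro h
    have e := mem_Flex.1 hv (Sum.inr h0) (Sum.inr h1) (by simpa using h)
    rw [p0, p1, g0, inner_E3] at e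
    simp at e
    exact e
  have e02 : H.Adj h0 h2 → σ₂ = 0 := by
    intro h
    have e := mem_Flex.1 hv (Sum.inr h0) (Sum.inr h2) (by simpa using h)
    rw [p0, p2, g0, inner_E3] at e
    simp at e
    exact e
  have e12 : H.Adj h1 h2 → σ₁ + σ₂ - ρ = 0 := by
    intro h
    have e := mem_Flex.1 hv (Sum.inr h1) (Sum.inr h2) (by simpa using h)
    rw [p1, p2, inner_E3] at e
    simp at e
    rw [k3] at e
    linarith
  obtain ⟨z1, z2, z3⟩ := hsys σ₁ σ₂ ρ hedge e01 e02 e12
  ext1 x
  apply e3_ext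
  rcases x with t | w
  · obtain ⟨a0, a1, a2⟩ := hform t
    rw [z1] at a0
    rw [z2, z3] at a1
    rw [z1, z2, z3] at a2
    intro k; fin_cases k
    · simpa using a0
    · simpa using a1
    · simpa using a2
  · rcases hall w with rfl | rfl | rfl
    · intro k; rw [g0]; rfl
    · intro k; fin_cases k
      · exact z1
      · exact k3
      · exact k4
    · intro k; fin_cases k
      · exact z3
      · exact z2
      · exact k5

/-- Three distinct edges form a triangle, or can be ordered so that each brings a new vertex. -/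
lemma three_edges [Finite V] (h : 3 ≤ G.edgeSet.ncard) :
    (∃ x y z, G.Adj x y ∧ G.Adj y z ∧ G.Adj x z) ∨
    (∃ x y z w t u, G.Adj x y ∧ G.Adj z w ∧ G.Adj t u ∧ w ≠ x ∧ w ≠ y ∧
      u ≠ x ∧ u ≠ y ∧ u ≠ z ∧ u ≠ w) := by
  classical
  obtain ⟨e1, e2, e3, he1, he2, he3, h12, h13, h23⟩ :=
    (Set.two_lt_ncard_iff (Set.toFinite _)).1 h
  -- the general statement with `d` new
  have main : ∀ a b c d f g : V, G.Adj a b → G.Adj c d → G.Adj f g → s(f, g) ≠ s(a, b) →
      s(f, g) ≠ s(c, d) → d ≠ a → d ≠ b →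
      (∃ x y z, G.Adj x y ∧ G.Adj y z ∧ G.Adj x z) ∨
      (∃ x y z w t u, G.Adj x y ∧ G.Adj z w ∧ G.Adj t u ∧ w ≠ x ∧ w ≠ y ∧
        u ≠ x ∧ u ≠ y ∧ u ≠ z ∧ u ≠ w) := by
    intro a b c d f g hab hcd hfg hn1 hn2 hda hdb
    by_cases hf : f ≠ a ∧ f ≠ b ∧ f ≠ c ∧ f ≠ d
    · exact Or.inr ⟨a, b, c, d, g, f, hab, hcd, hfg.symm, hda, hdb, hf.1, hf.2.1, hf.2.2.1,
        hf.2.2.2⟩
    by_cases hg : g ≠ a ∧ g ≠ b ∧ g ≠ c ∧ g ≠ d
    · exact Or.inr ⟨a, b, c, d, f, g, hab, hcd, hfg, hda, hdb, hg.1, hg.2.1, hg.2.2.1,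
        hg.2.2.2⟩
    have hf' : f = a ∨ f = b ∨ f = c ∨ f = d := by tauto
    have hg' : g = a ∨ g = b ∨ g = c ∨ g = d := by tauto
    by_cases hca : c = a
    · subst hca
      left
      rcases hf' with rfl | rfl | rfl | rfl <;> rcases hg' with rfl | rfl | rfl | rfl
      all_goals first
        | exact absurd rfl hfg.ne
        | exact absurd rfl hn1
        | exact absurd Sym2.eq_swap hn1
        | exact absurd rfl hn2
        | exact absurd Sym2.eq_swap hn2
        | exact ⟨_, _, _, hab, hfg, hcd⟩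
        | exact ⟨_, _, _, hab, hfg.symm, hcd⟩
    by_cases hcb : c = b
    · subst hcb
      left
      rcases hf' with rfl | rfl | rfl | rfl <;> rcases hg' with rfl | rfl | rfl | rfl
      all_goals first
        | exact absurd rfl hfg.ne
        | exact absurd rfl hn1
        | exact absurd Sym2.eq_swap hn1
        | exact absurd rfl hn2
        | exact absurd Sym2.eq_swap hn2
        | exact ⟨_, _, _, hab, hcd, hfg⟩
        | exact ⟨_, _, _, hab, hcd, hfg.symm⟩
    right
    rcases hf' with rfl | rfl | rfl | rfl <;> rcases hg' with rfl | rfl | rfl | rfl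
    all_goals first
      | exact absurd rfl hfg.ne
      | exact absurd rfl hn1
      | exact absurd Sym2.eq_swap hn1
      | exact absurd rfl hn2
      | exact absurd Sym2.eq_swap hn2
      | exact ⟨_, _, _, _, _, _, hab, hfg, hcd, by tauto, by tauto, by tauto, by tauto, by tauto,
          hcd.ne.symm⟩
      | exact ⟨_, _, _, _, _, _, hab, hfg, hcd.symm, by tauto, by tauto, by tauto, by tauto,
          by tauto, hcd.ne⟩
      | exact ⟨_, _, _, _, _, _, hab, hfg.symm, hcd, by tauto, by tauto, by tauto, by tauto,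
          by tauto, hcd.ne.symm⟩
      | exact ⟨_, _, _, _, _, _, hab, hfg.symm, hcd.symm, by tauto, by tauto, by tauto, by tauto,
          by tauto, hcd.ne⟩
  induction e1 with | h a b => ?_
  induction e2 with | h c d => ?_
  induction e3 with | h f g => ?_
  rw [SimpleGraph.mem_edgeSet] at he1 he2 he3
  by_cases hd : d ≠ a ∧ d ≠ b
  · exact main a b c d f g he1 he2 he3 h13.symm h23.symm hd.1 hd.2
  · have hc : c ≠ a ∧ c ≠ b := by
      constructor
      · rintro rfl
        have : d = c ∨ d = b := by tauto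
        rcases this with rfl | rfl
        · exact he2.ne rfl
        · exact h12 rfl
      · rintro rfl
        have : d = a ∨ d = c := by tauto
        rcases this with rfl | rfl
        · exact h12 Sym2.eq_swap
        · exact he2.ne rfl
    exact main a b d c f g he1 he2.symm he3 h13.symm (by rw [Sym2.eq_swap (a := d)]; exact h23.symm)
      hc.1 hc.2

/-- Two distinct edges can be ordered so that the second brings a new vertex. -/
lemma two_edges [Finite V] (h : 2 ≤ G.edgeSet.ncard) :
    ∃ x y z w, G.Adj x y ∧ G.Adj z w ∧ w ≠ x ∧ w ≠ y := by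
  classical
  obtain ⟨e1, e2, he1, he2, h12⟩ := (Set.one_lt_ncard_iff (Set.toFinite _)).1 h
  induction e1 with | h a b => ?_
  induction e2 with | h c d => ?_
  rw [SimpleGraph.mem_edgeSet] at he1 he2
  by_cases hd : d ≠ a ∧ d ≠ b
  · exact ⟨a, b, c, d, he1, he2, hd.1, hd.2⟩
  · have hc : c ≠ a ∧ c ≠ b := by
      constructor
      · rintro rfl
        have : d = c ∨ d = b := by tauto
        rcases this with rfl | rfl
        · exact he2.ne rfl
        · exact h12 rfl
      · rintro rfl
        have : d = a ∨ d = c := by tauto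
        rcases this with rfl | rfl
        · exact h12 Sym2.eq_swap
        · exact he2.ne rfl
    exact ⟨a, b, d, c, he1, he2.symm, hc.1, hc.2⟩

end

end Pool.Agent.H26R

end Join3Part

section JoinThreePart

/-!
Sufficiency for joins in which one side has exactly three vertices.
-/

open Module
open scoped RealInnerProductSpace

namespace Pool.Agent.H26R

variable {V W : Type*} {G : SimpleGraph V} {H : SimpleGraph W}

lemma hall_three [Fintype W] (hW : Fintype.card W = 3) {h0 h1 h2 : W} (h01 : h0 ≠ h1)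
    (h02 : h0 ≠ h2) (h12 : h1 ≠ h2) : ∀ w, w = h0 ∨ w = h1 ∨ w = h2 := by
  classical
  intro w
  have : ({h0, h1, h2} : Finset W) = Finset.univ := by
    apply Finset.eq_univ_of_card
    rw [hW, Finset.card_insert_of_notMem, Finset.card_insert_of_notMem, Finset.card_singleton]
    · simpa using h12
    · simp [h01, h02]
  have hw := Finset.mem_univ w
  rw [← this] at hw
  simpa using hw

lemma two_edges_three [Fintype W] (hW : Fintype.card W = 3) (h : 2 ≤ H.edgeSet.ncard) :
    ∃ h0 h1 h2, h0 ≠ h1 ∧ h0 ≠ h2 ∧ h1 ≠ h2 ∧ H.Adj h0 h1 ∧ H.Adj h0 h2 := by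
  obtain ⟨x, y, z, w, hxy, hzw, hwx, hwy⟩ := two_edges h
  rcases hall_three hW hxy.ne hwx.symm hwy.symm z with rfl | rfl | rfl
  · exact ⟨z, y, w, hxy.ne, hwx.symm, hwy.symm, hxy, hzw⟩
  · exact ⟨z, x, w, hxy.ne.symm, hwy.symm, hwx.symm, hxy.symm, hzw⟩
  · exact absurd rfl hzw.ne

theorem join_three [Fintype V] [Fintype W] (hW : Fintype.card W = 3)
    (he : 3 ≤ G.edgeSet.ncard + H.edgeSet.ncard) :
    ∃ p, finrank ℝ (Flex (jn G H) p) ≤ 6 := by
  classical
  by_cases h2 : 2 ≤ H.edgeSet.ncard
  · obtain ⟨h0, h1, h2, h01, h02, h12, a01, a02⟩ := two_edges_three hW h2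
    have hall := hall_three hW h01 h02 h12
    by_cases a12 : H.Adj h1 h2
    · apply exists_of_core3 h0 h1 h2 h01 h02 h12 hall (fun _ => ![1, 0, 0])
      · intro t; simp
      · intro σ₁ σ₂ ρ _ e1 e2 e3
        have := e1 a01
        have := e2 a02
        have := e3 a12
        refine ⟨by assumption, by assumption, by linarith⟩
    · have hG : G.edgeSet.Nonempty := by
        rw [← Set.ncard_pos (Set.toFinite _)]
        have : H.edgeSet.ncard ≤ 2 := by
          have hsub : H.edgeSet ⊆ {s(h0, h1), s(h0, h2)} := by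
            intro e hE
            induction e with | h a b => ?_
            rw [SimpleGraph.mem_edgeSet] at hE
            rcases hall a with rfl | rfl | rfl <;> rcases hall b with rfl | rfl | rfl
            all_goals first
              | exact absurd rfl hE.ne
              | exact absurd hE a12
              | exact absurd hE.symm a12
              | (left; rfl)
              | (left; exact Sym2.eq_swap)
              | (right; rfl)
              | (right; exact Sym2.eq_swap)
          exact (Set.ncard_le_ncard hsub (Set.toFinite _)).trans (by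
            rw [Set.ncard_eq_toFinset_card']
            simpa using Finset.card_le_two (a := s(h0, h1)) (b := s(h0, h2)))
        omega
      obtain ⟨e, hE⟩ := hG
      induction e with | h x y => ?_
      rw [SimpleGraph.mem_edgeSet] at hE
      apply exists_of_core3 h0 h1 h2 h01 h02 h12 hall
        (Function.update (fun _ => ![1, 0, 0]) y ![1, 1, 1])
      · intro t
        by_cases hty : t = y
        · subst hty; simp; norm_num
        · rw [Function.update_of_ne hty]; simp
      · intro σ₁ σ₂ ρ hg e1 e2 e3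
        have z1 := e1 a01
        have z2 := e2 a02
        have := hg x y hE
        rw [Function.update_self, Function.update_of_ne hE.ne] at this
        simp [q3] at this
        refine ⟨z1, z2, by linarith⟩
  · by_cases hH : ∃ h1 h2, H.Adj h1 h2
    · obtain ⟨h1, h2, a12⟩ := hH
      obtain ⟨h0, h01, h02⟩ : ∃ h0, h0 ≠ h1 ∧ h0 ≠ h2 := by
        by_contra hcon
        push Not at hcon
        have : Fintype.card W ≤ 2 := by
          have hsub : (Finset.univ : Finset W) ⊆ {h1, h2} := by
            intro w _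
            by_cases hw : w = h1
            · simp [hw]
            · simp [hcon w hw]
          exact (Finset.card_le_card hsub).trans Finset.card_le_two
        omega
      have hall := hall_three hW h01 h02 a12.ne
      have hG : 2 ≤ G.edgeSet.ncard := by omega
      obtain ⟨x, y, z, w, hxy, hzw, hwx, hwy⟩ := two_edges hG
      set c1 : V → Fin 3 → ℝ := Function.update (fun _ => ![1, 0, 0]) y ![2, 1, 0] with hc1
      have t1 : ∀ t, 0 < c1 t 0 + c1 t 1 + c1 t 2 := by
        intro t
        by_cases hty : t = y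
        · subst hty; simp [hc1]; norm_num
        · rw [hc1, Function.update_of_ne hty]; simp
      apply exists_of_core3 h0 h1 h2 h01 h02 a12.ne hall
        (Function.update c1 w (c1 z + ![1, 0, 1]))
      · intro t
        by_cases htw : t = w
        · subst htw
          rw [Function.update_self]
          have := t1 z
          simp
          intro h
          linarith
        · rw [Function.update_of_ne htw]
          exact (t1 t).ne'
      · intro σ₁ σ₂ ρ hg e1 e2 e3
        have z3 := e3 a12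
        have g1 := hg x y hxy
        have g2 := hg z w hzw
        rw [Function.update_of_ne hwx.symm, Function.update_of_ne hwy.symm, hc1,
          Function.update_self, Function.update_of_ne hxy.ne] at g1
        rw [Function.update_self, Function.update_of_ne hzw.ne] at g2
        change ((1:ℝ) - 2) * (0 - 1) * σ₁ + (1 - 2) * (0 - 0) * σ₂ +
          (0 - 1) * (0 - 0) * (σ₁ + σ₂ - ρ) = 0 at g1
        change (c1 z 0 - (c1 z 0 + 1)) * (c1 z 1 - (c1 z 1 + 0)) * σ₁ +
          (c1 z 0 - (c1 z 0 + 1)) * (c1 z 2 - (c1 z 2 + 1)) * σ₂ +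
          (c1 z 1 - (c1 z 1 + 0)) * (c1 z 2 - (c1 z 2 + 1)) * (σ₁ + σ₂ - ρ) = 0 at g2
        ring_nf at g1 g2
        refine ⟨g1, g2, by linarith⟩
    · have hH0 : H.edgeSet.ncard = 0 := by
        rw [Set.ncard_eq_zero (Set.toFinite _)]
        ext e
        induction e with | h a b => ?_
        rw [SimpleGraph.mem_edgeSet]
        simp only [Set.mem_empty_iff_false, iff_false]
        exact fun h => hH ⟨a, b, h⟩
      have hG : 3 ≤ G.edgeSet.ncard := by omega
      obtain ⟨h0, h1, h2, h01, h02, h12, -⟩ := Finset.card_eq_three.1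
        (show (Finset.univ : Finset W).card = 3 by rw [Finset.card_univ, hW])
      have hall := hall_three hW h01 h02 h12
      rcases three_edges hG with ⟨x, y, z, hxy, hyz, hxz⟩ |
        ⟨x, y, z, w, t, u, hxy, hzw, htu, hwx, hwy, hux, huy, huz, huw⟩
      · apply exists_of_core3 h0 h1 h2 h01 h02 h12 hall
          (Function.update (Function.update (fun _ => ![1, 0, 0]) y ![2, 1, 0]) z ![2, 2, 1])
        · intro t
          by_cases htz : t = z
          · subst htz; rw [Function.update_self]; simp; norm_num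
          rw [Function.update_of_ne htz]
          by_cases hty : t = y
          · subst hty; rw [Function.update_self]; simp; norm_num
          rw [Function.update_of_ne hty]; simp
        · intro σ₁ σ₂ ρ hg _ _ _
          have g1 := hg x y hxy
          have g2 := hg y z hyz
          have g3 := hg x z hxz
          rw [Function.update_of_ne hxz.ne, Function.update_of_ne hyz.ne,
            Function.update_self, Function.update_of_ne hxy.ne] at g1
          rw [Function.update_self, Function.update_of_ne hyz.ne, Function.update_self] at g2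
          rw [Function.update_self, Function.update_of_ne hxz.ne, Function.update_of_ne hxy.ne] at g3
          change ((1:ℝ) - 2) * (0 - 1) * σ₁ + (1 - 2) * (0 - 0) * σ₂ +
            (0 - 1) * (0 - 0) * (σ₁ + σ₂ - ρ) = 0 at g1
          change ((2:ℝ) - 2) * (1 - 2) * σ₁ + (2 - 2) * (0 - 1) * σ₂ +
            (1 - 2) * (0 - 1) * (σ₁ + σ₂ - ρ) = 0 at g2
          change ((1:ℝ) - 2) * (0 - 2) * σ₁ + (1 - 2) * (0 - 1) * σ₂ +
            (0 - 2) * (0 - 1) * (σ₁ + σ₂ - ρ) = 0 at g3
          ring_nf at g1 g2 g3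
          refine ⟨g1, by linarith, by linarith⟩
      · set c1 : V → Fin 3 → ℝ := Function.update (fun _ => ![1, 0, 0]) y ![2, 1, 0] with hc1
        have t1 : ∀ t, 0 < c1 t 0 + c1 t 1 + c1 t 2 := by
          intro t
          by_cases hty : t = y
          · subst hty; simp [hc1]; norm_num
          · rw [hc1, Function.update_of_ne hty]; simp
        set c2 : V → Fin 3 → ℝ := Function.update c1 w (c1 z + ![1, 0, 1]) with hc2
        have t2 : ∀ t, 0 < c2 t 0 + c2 t 1 + c2 t 2 := by
          intro t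
          by_cases htw : t = w
          · subst htw
            rw [hc2, Function.update_self]
            have := t1 z
            simp
            linarith
          · rw [hc2, Function.update_of_ne htw]
            exact t1 t
        apply exists_of_core3 h0 h1 h2 h01 h02 h12 hall
          (Function.update c2 u (c2 t + ![0, 1, 1]))
        · intro s
          by_cases hsu : s = u
          · subst hsu
            rw [Function.update_self]
            have := t2 t
            simp
            intro h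
            linarith
          · rw [Function.update_of_ne hsu]
            exact (t2 s).ne'
        · intro σ₁ σ₂ ρ hg _ _ _
          have g1 := hg x y hxy
          have g2 := hg z w hzw
          have g3 := hg t u htu
          rw [Function.update_of_ne hux.symm, Function.update_of_ne huy.symm, hc2,
            Function.update_of_ne hwx.symm, Function.update_of_ne hwy.symm, hc1,
            Function.update_self, Function.update_of_ne hxy.ne] at g1
          rw [Function.update_of_ne huz.symm, Function.update_of_ne huw.symm, hc2,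
            Function.update_self, Function.update_of_ne hzw.ne] at g2
          rw [Function.update_self, Function.update_of_ne htu.ne] at g3
          change ((1:ℝ) - 2) * (0 - 1) * σ₁ + (1 - 2) * (0 - 0) * σ₂ +
            (0 - 1) * (0 - 0) * (σ₁ + σ₂ - ρ) = 0 at g1
          change (c1 z 0 - (c1 z 0 + 1)) * (c1 z 1 - (c1 z 1 + 0)) * σ₁ +
            (c1 z 0 - (c1 z 0 + 1)) * (c1 z 2 - (c1 z 2 + 1)) * σ₂ +
            (c1 z 1 - (c1 z 1 + 0)) * (c1 z 2 - (c1 z 2 + 1)) * (σ₁ + σ₂ - ρ) = 0 at g2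
          change (c2 t 0 - (c2 t 0 + 0)) * (c2 t 1 - (c2 t 1 + 1)) * σ₁ +
            (c2 t 0 - (c2 t 0 + 0)) * (c2 t 2 - (c2 t 2 + 1)) * σ₂ +
            (c2 t 1 - (c2 t 1 + 1)) * (c2 t 2 - (c2 t 2 + 1)) * (σ₁ + σ₂ - ρ) = 0 at g3
          ring_nf at g1 g2 g3
          refine ⟨g1, g2, by linarith⟩

end Pool.Agent.H26R

end JoinThreePart

section NecessityPart

/-!
Necessary conditions: Maxwell's count and the hinge argument.
-/

open Module MeasureTheory
open scoped RealInnerProductSpace

namespace Pool.Agent.H26R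

section
variable {T : Type*}

/-- Maxwell's count. -/
theorem maxwell [Fintype T] (Γ : SimpleGraph T) (p : T → E3) :
    3 * Fintype.card T ≤ finrank ℝ (Flex Γ p) + Γ.edgeSet.ncard := by
  classical
  let M : (T → E3) →ₗ[ℝ] (Γ.edgeSet → ℝ) :=
    LinearMap.pi fun e => (innerₛₗ ℝ (p (Quot.out e.1).1 - p (Quot.out e.1).2)).comp
      ((LinearMap.proj (Quot.out e.1).1 : (T → E3) →ₗ[ℝ] E3) -
        (LinearMap.proj (Quot.out e.1).2 : (T → E3) →ₗ[ℝ] E3))
  have hker : LinearMap.ker M ≤ Flex Γ p := by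
    intro v hv
    rw [mem_Flex]
    intro i j hij
    have h := congrFun (LinearMap.mem_ker.1 hv) ⟨s(i, j), hij⟩
    have h' : ⟪p (Quot.out s(i, j)).1 - p (Quot.out s(i, j)).2,
        v (Quot.out s(i, j)).1 - v (Quot.out s(i, j)).2⟫ = 0 := h
    have hout : s((Quot.out s(i, j)).1, (Quot.out s(i, j)).2) = s(i, j) :=
      Quot.out_eq (s(i, j))
    rw [Sym2.eq_iff] at hout
    rcases hout with ⟨h1, h2⟩ | ⟨h1, h2⟩
    · rw [h1, h2] at h'
      exact h'
    · rw [h1, h2] at h'
      rw [← neg_sub (p i), ← neg_sub (v i), inner_neg_neg] at h'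
      exact h'
  have h1 := LinearMap.finrank_range_add_finrank_ker M
  have h2 : finrank ℝ (LinearMap.range M) ≤ Fintype.card Γ.edgeSet := by
    refine (Submodule.finrank_le _).trans ?_
    simp
  have h3 : finrank ℝ (LinearMap.ker M) ≤ finrank ℝ (Flex Γ p) := Submodule.finrank_mono hker
  have h4 : finrank ℝ (T → E3) = 3 * Fintype.card T := by
    rw [finrank_pi_fintype]
    simp [mul_comm]
  have h5 : Γ.edgeSet.ncard = Fintype.card Γ.edgeSet := by
    rw [Set.ncard_eq_toFinset_card', Set.toFinset_card]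
  omega

end

section
variable {V W : Type*} {G : SimpleGraph V} {H : SimpleGraph W}

lemma ncard_jn_le [Fintype V] [Fintype W] :
    (jn G H).edgeSet.ncard ≤ G.edgeSet.ncard + H.edgeSet.ncard +
      Fintype.card V * Fintype.card W := by
  classical
  have hsub : (jn G H).edgeSet ⊆ (Sym2.map Sum.inl '' G.edgeSet) ∪
      (Sym2.map Sum.inr '' H.edgeSet) ∪
      Set.range (fun x : V × W => (s(Sum.inl x.1, Sum.inr x.2) : Sym2 (V ⊕ W))) := by
    intro e he
    induction e with | h a b => ?_
    rw [SimpleGraph.mem_edgeSet] at he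
    rcases a with a | a <;> rcases b with b | b
    · left; left
      exact ⟨s(a, b), by simpa using he, rfl⟩
    · right
      exact ⟨(a, b), rfl⟩
    · right
      exact ⟨(b, a), Sym2.eq_swap⟩
    · left; right
      exact ⟨s(a, b), by simpa using he, rfl⟩
  refine (Set.ncard_le_ncard hsub (Set.toFinite _)).trans ?_
  refine (Set.ncard_union_le _ _).trans ?_
  refine add_le_add ((Set.ncard_union_le _ _).trans
    (add_le_add (Set.ncard_image_le (Set.toFinite _)) (Set.ncard_image_le (Set.toFinite _)))) ?_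
  rw [← Set.image_univ]
  refine (Set.ncard_image_le (Set.toFinite _)).trans ?_
  rw [Set.ncard_univ, Nat.card_eq_fintype_card, Fintype.card_prod]

theorem count_of_exists [Fintype V] [Fintype W]
    (h : ∃ p, finrank ℝ (Flex (jn G H) p) ≤ 6) :
    3 * (Fintype.card V + Fintype.card W) ≤ 6 + (G.edgeSet.ncard + H.edgeSet.ncard +
      Fintype.card V * Fintype.card W) := by
  obtain ⟨p, hp⟩ := h
  have h1 := maxwell (jn G H) p
  have h2 := ncard_jn_le (G := G) (H := H)
  rw [Fintype.card_sum] at h1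
  omega

/-- If `ω × a = ω × b = 0` and `a, b, c` span, then `ω = 0`. -/
lemma crossE_eq_zero_of {a b c ω : E3}
    (h : ∀ x : E3, ⟪a, x⟫ = 0 → ⟪b, x⟫ = 0 → ⟪c, x⟫ = 0 → x = 0)
    (ha : K ω a = 0) (hb : K ω b = 0) : ω = 0 := by
  have perp : ∀ y z : E3, K ω y = 0 → ⟪y, K ω z⟫ = 0 := by
    intro y z hy
    have := inner_crossE ω y z
    rw [← K_apply, ← K_apply, hy, inner_zero_left] at this
    linarith
  have hc : K ω c = 0 := h _ (perp _ _ ha) (perp _ _ hb) (inner_crossE_self ω c)
  have hall : ∀ y, K ω y = 0 := fun y => h _ (perp _ _ ha) (perp _ _ hb) (perp _ _ hc)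
  have h0 := congrArg (fun z : E3 => z 1) (hall (EuclideanSpace.single 0 1))
  have h1 := congrArg (fun z : E3 => z 2) (hall (EuclideanSpace.single 0 1))
  have h2 := congrArg (fun z : E3 => z 2) (hall (EuclideanSpace.single 1 1))
  simp only [K_apply] at h0 h1 h2
  simp [crossE] at h0 h1 h2
  apply e3_ext
  intro k
  fin_cases k
  · simpa using h2
  · simpa using h1
  · simpa using h0

lemma ne_zero_of_spans {a b c : E3}
    (h : ∀ x : E3, ⟪a, x⟫ = 0 → ⟪b, x⟫ = 0 → ⟪c, x⟫ = 0 → x = 0) : a ≠ 0 := by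
  rintro rfl
  let L : E3 →ₗ[ℝ] (Fin 3 → ℝ) := LinearMap.pi ![innerₛₗ ℝ (0 : E3), innerₛₗ ℝ b, innerₛₗ ℝ c]
  have hL : Function.Injective L := by
    rw [← LinearMap.ker_eq_bot, LinearMap.ker_eq_bot']
    intro x hx
    apply h x
    · simp
    · exact congrFun hx 1
    · exact congrFun hx 2
  have hs : Function.Surjective L := by
    rw [← LinearMap.injective_iff_surjective_of_finrank_eq_finrank]
    · exact hL
    · simp
  obtain ⟨x, hx⟩ := hs ![1, 0, 0]
  have h0 := congrFun hx 0
  have h1 : L x 0 = 0 := inner_zero_left x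
  rw [h1] at h0
  simp at h0

/-- Hinge argument: a join with a two-vertex graph is flexible if the other side is
disconnected. -/
theorem connected_of_exists [Fintype V] [Fintype W] [Nonempty V] (hW : Fintype.card W = 2)
    (h : ∃ p, finrank ℝ (Flex (jn G H) p) ≤ 6) : G.Connected := by
  classical
  by_contra hcon
  rw [SimpleGraph.connected_iff] at hcon
  have hpre : ¬ G.Preconnected := fun hp => hcon ⟨hp, inferInstance⟩
  unfold SimpleGraph.Preconnected at hpre
  push Not at hpre
  obtain ⟨i, j, hij⟩ := hpre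
  obtain ⟨u, w, huw, hunv⟩ := Finset.card_eq_two.1
    (show (Finset.univ : Finset W).card = 2 by rw [Finset.card_univ, hW])
  have hall : ∀ x, x = u ∨ x = w := by
    intro x
    have := Finset.mem_univ x
    rw [hunv] at this
    simpa using this
  obtain ⟨p₀, hp₀⟩ := h
  have hne : i ≠ j := by
    rintro rfl
    exact hij (SimpleGraph.Reachable.refl i)
  have h1 := ae_spans (V := V ⊕ W) (a := Sum.inr u) (b := Sum.inr w) (c := Sum.inl j)
    (d := Sum.inl i) (by simpa using huw) (by simp) (by simp) (by simp) (by simp)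
    (by simpa using hne.symm)
  have h2 := ae_finrank_ker_le (volume : Measure (V ⊕ W → E3)) (rig (jn G H)) p₀
  obtain ⟨p, hs, hm⟩ := (h1.and h2).exists
  have hm' : finrank ℝ (Flex (jn G H) p) ≤ 6 := hm.trans hp₀
  have hF := Flex_eq_range_triv ⟨_, _, _, _, hs⟩ hm'
  set ω : E3 := p (Sum.inr w) - p (Sum.inr u) with hω
  let v : V ⊕ W → E3 := Sum.elim
    (fun k => if G.Reachable i k then K ω (p (Sum.inl k) - p (Sum.inr u)) else 0) (fun _ => 0)
  have hωω : K ω ω = 0 := by
    rw [K_apply]
    apply e3_ext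
    intro k
    fin_cases k <;> simp [crossE] <;> ring
  have hx : ∀ x : W, K ω (p (Sum.inr x) - p (Sum.inr u)) = 0 := by
    intro x
    rcases hall x with rfl | rfl
    · simp
    · exact hωω
  have hv : v ∈ Flex (jn G H) p := by
    rw [mem_Flex]
    have hcross : ∀ (k : V) (x : W),
        ⟪p (Sum.inl k) - p (Sum.inr x), v (Sum.inl k) - v (Sum.inr x)⟫ = 0 := by
      intro k x
      by_cases hk : G.Reachable i k
      · have e : v (Sum.inl k) - v (Sum.inr x) = K ω (p (Sum.inl k) - p (Sum.inr x)) := by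
          simp only [v, Sum.elim_inl, Sum.elim_inr, if_pos hk, sub_zero]
          have : p (Sum.inl k) - p (Sum.inr u) =
            (p (Sum.inl k) - p (Sum.inr x)) + (p (Sum.inr x) - p (Sum.inr u)) := by abel
          rw [this, map_add, hx, add_zero]
        rw [e]
        exact inner_crossE_self _ _
      · simp [v, hk]
    rintro (k | k) (l | l) hkl
    · by_cases hk : G.Reachable i k
      · have hadj : G.Adj k l := by simpa using hkl
        have hl : G.Reachable i l := hk.trans hadj.reachable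
        have e : v (Sum.inl k) - v (Sum.inl l) = K ω (p (Sum.inl k) - p (Sum.inl l)) := by
          simp only [v, Sum.elim_inl, if_pos hk, if_pos hl]
          rw [← map_sub]
          congr 1
          abel
        rw [e]
        exact inner_crossE_self _ _
      · have hadj : G.Adj k l := by simpa using hkl
        have hl : ¬ G.Reachable i l := fun hl => hk (hl.trans hadj.symm.reachable)
        simp [v, hk, hl]
    · exact hcross k l
    · have := hcross l k
      rw [← neg_sub (p (Sum.inl l)), ← neg_sub (v (Sum.inl l)), inner_neg_neg]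
      exact this
    · simp [v]
  rw [hF] at hv
  obtain ⟨z, hz⟩ := hv
  have zu : K z.1 (p (Sum.inr u)) + z.2 = 0 := congrFun hz (Sum.inr u)
  have zw : K z.1 (p (Sum.inr w)) + z.2 = 0 := congrFun hz (Sum.inr w)
  have zj : K z.1 (p (Sum.inl j)) + z.2 = 0 := by
    have := congrFun hz (Sum.inl j)
    rw [triv_apply] at this
    simpa [v, hij] using this
  have zi : K z.1 (p (Sum.inl i)) + z.2 = K ω (p (Sum.inl i) - p (Sum.inr u)) := by
    have := congrFun hz (Sum.inl i)
    rw [triv_apply] at this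
    simpa [v] using this
  have z1 : z.1 = 0 := by
    apply crossE_eq_zero_of hs
    · rw [map_sub]
      rw [← add_sub_add_right_eq_sub _ _ z.2, zu, zw, sub_zero]
    · rw [map_sub]
      rw [← add_sub_add_right_eq_sub _ _ z.2, zu, zj, sub_zero]
  have z2 : z.2 = 0 := by
    rw [z1] at zu
    simpa using zu
  have hKi : K ω (p (Sum.inl i) - p (Sum.inr u)) = 0 := by
    rw [← zi, z1, z2]; simp
  have : ω = 0 := crossE_eq_zero_of (a := ω) (b := p (Sum.inl i) - p (Sum.inr u))
    (c := p (Sum.inl j) - p (Sum.inr u)) (fun x e1 e2 e3 => hs x e1 e3 e2) hωω hKi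
  exact ne_zero_of_spans hs this

end

end Pool.Agent.H26R

end NecessityPart

section MainPart

/-!
The characterisation of generically rigid joins.
-/

open Module
open scoped RealInnerProductSpace

namespace Pool.Agent.H26R

variable {V W : Type*}

/-- The explicit condition on a join with `card W ≤ card V`. -/
def JoinCond [Fintype V] [Fintype W] (G : SimpleGraph V) (H : SimpleGraph W) : Prop :=
  (Fintype.card W = 2 ∧ G.Connected ∧ (H ≠ ⊥ ∨ ¬ G.IsAcyclic)) ∨
  (Fintype.card W = 3 ∧ 3 ≤ G.edgeSet.ncard + H.edgeSet.ncard) ∨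
  (4 ≤ Fintype.card W ∧
    10 ≤ Fintype.card V + Fintype.card W + G.edgeSet.ncard + H.edgeSet.ncard)

theorem joins [Fintype V] [Fintype W] (G : SimpleGraph V) (H : SimpleGraph W)
    (hW : 2 ≤ Fintype.card W) (hVW : Fintype.card W ≤ Fintype.card V) :
    GenericallyRigid ((G ⊕g H) ⊔ completeBipartiteGraph V W) ↔
      (Fintype.card W = 2 ∧ G.Connected ∧ (H ≠ ⊥ ∨ ¬ G.IsAcyclic)) ∨
      (Fintype.card W = 3 ∧ 3 ≤ G.edgeSet.ncard + H.edgeSet.ncard) ∨
      (4 ≤ Fintype.card W ∧
        10 ≤ Fintype.card V + Fintype.card W + G.edgeSet.ncard + H.edgeSet.ncard) := by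
  classical
  rw [genericallyRigid_iff (by rw [Fintype.card_sum]; omega)]
  constructor
  · intro h
    have hc := count_of_exists (G := G) (H := H) h
    by_cases h2 : Fintype.card W = 2
    · left
      haveI : Nonempty V := Fintype.card_pos_iff.1 (by omega)
      have hconn : G.Connected := connected_of_exists h2 h
      refine ⟨h2, hconn, ?_⟩
      by_contra hcon
      push Not at hcon
      obtain ⟨hH, hG⟩ := hcon
      have htree : G.IsTree := ⟨hconn, hG⟩
      have h3 := htree.card_edgeFinset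
      have h4 : G.edgeSet.ncard = G.edgeFinset.card := by
        rw [Set.ncard_eq_toFinset_card', SimpleGraph.edgeFinset]
      have h5 : H.edgeSet.ncard = 0 := by
        rw [hH]; simp
      rw [h2, h5, h4] at hc
      omega
    · by_cases h3 : Fintype.card W = 3
      · right; left
        refine ⟨h3, ?_⟩
        rw [h3] at hc
        omega
      · right; right
        have h4 : 4 ≤ Fintype.card W := by omega
        refine ⟨h4, ?_⟩
        by_contra hcon
        push Not at hcon
        have h5 : Fintype.card W = 4 := by omega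
        rw [h5] at hc hcon hVW
        have h6 : Fintype.card V = 4 ∨ Fintype.card V = 5 := by omega
        rcases h6 with h6 | h6 <;> rw [h6] at hc hcon <;> omega
  · rintro (⟨h1, h2, h3⟩ | ⟨h1, h2⟩ | ⟨h1, h2⟩)
    · exact join_two h1 h2 h3
    · exact join_three h1 h2
    · exact join_big G H (by omega) h1 h2

end Pool.Agent.H26R

end MainPart
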